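import Mathlib

/-! Block triangular splitting: a matrix whose diagonal blocks split flexibly is a sum of two
`k`-th powers. -/

open Finset Polynomial

namespace Pool.Agent.LarsenW

variable {F : Type*} [Field F]

/-- `f` divides `h ^ k - X` for some `h`. -/
def Nice (k : ℕ) (f : F[X]) : Prop := ∃ h : F[X], f ∣ h ^ k - X

lemma Nice.mul {k : ℕ} {f g : F[X]} (hf : Nice k f) (hg : Nice k g) (hfg : IsCoprime f g) :
    Nice k (f * g) := by
  obtain ⟨h1, hh1⟩ := hf
  obtain ⟨h2, hh2⟩ := hg
  obtain ⟨a, b, hab⟩ := hfg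
  refine ⟨h2 * (a * f) + h1 * (b * g), ?_⟩
  refine IsCoprime.mul_dvd ⟨a, b, hab⟩ ?_ ?_
  · have h3 : f ∣ (h2 * (a * f) + h1 * (b * g)) - h1 := by
      refine ⟨(h2 - h1) * a, ?_⟩
      linear_combination h1 * hab
    have h4 : f ∣ (h2 * (a * f) + h1 * (b * g)) ^ k - h1 ^ k := h3.trans (sub_dvd_pow_sub_pow _ _ k)
    have h5 := dvd_add h4 hh1
    have : (h2 * (a * f) + h1 * (b * g)) ^ k - h1 ^ k + (h1 ^ k - X)
        = (h2 * (a * f) + h1 * (b * g)) ^ k - X := by ring
    rwa [this] at h5
  · have h3 : g ∣ (h2 * (a * f) + h1 * (b * g)) - h2 := by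
      refine ⟨(h1 - h2) * b, ?_⟩
      linear_combination h2 * hab
    have h4 : g ∣ (h2 * (a * f) + h1 * (b * g)) ^ k - h2 ^ k := h3.trans (sub_dvd_pow_sub_pow _ _ k)
    have h5 := dvd_add h4 hh2
    have : (h2 * (a * f) + h1 * (b * g)) ^ k - h2 ^ k + (h2 ^ k - X)
        = (h2 * (a * f) + h1 * (b * g)) ^ k - X := by ring
    rwa [this] at h5

lemma Nice.one (k : ℕ) : Nice k (1 : F[X]) := ⟨0, one_dvd _⟩

lemma Nice.prod {k : ℕ} {α : Type*} [DecidableEq α] (s : Finset α) (f : α → F[X])
    (hf : ∀ a ∈ s, Nice k (f a)) (hc : ∀ a ∈ s, ∀ b ∈ s, a ≠ b → IsCoprime (f a) (f b)) :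
    Nice k (∏ a ∈ s, f a) := by
  induction s using Finset.induction_on with
  | empty => simpa using Nice.one k
  | insert a s ha ih =>
    rw [Finset.prod_insert ha]
    refine Nice.mul (hf a (Finset.mem_insert_self a s)) (ih ?_ ?_) ?_
    · intro c hc'; exact hf c (Finset.mem_insert_of_mem hc')
    · intro c hc' d hd hcd
      exact hc c (Finset.mem_insert_of_mem hc') d (Finset.mem_insert_of_mem hd) hcd
    · refine IsCoprime.prod_right ?_
      intro c hc'
      exact hc a (Finset.mem_insert_self a s) c (Finset.mem_insert_of_mem hc')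
        (fun h => ha (h ▸ hc'))

lemma exists_pow_of_nice {k : ℕ} {ι : Type*} [Fintype ι] [DecidableEq ι] (M : Matrix ι ι F)
    (h : Nice k M.charpoly) : ∃ X : Matrix ι ι F, X ^ k = M := by
  obtain ⟨g, hg⟩ := h
  obtain ⟨r, hr⟩ := hg
  refine ⟨aeval M g, ?_⟩
  have h1 : aeval M (g ^ k - X) = 0 := by
    rw [hr, map_mul, Matrix.aeval_self_charpoly, zero_mul]
  rw [map_sub, map_pow, aeval_X, sub_eq_zero] at h1
  exact h1

/-- the block `D` splits as `L + U` with irreducible nice char polys outside `Z` -/
def Blk {κ : Type*} [Fintype κ] [DecidableEq κ] (k : ℕ) (Z : Finset F[X]) (D : Matrix κ κ F) : Prop :=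
  ∃ L U : Matrix κ κ F, D = L + U ∧
    (Irreducible L.charpoly ∧ Nice k L.charpoly ∧ L.charpoly ∉ Z) ∧
    (Irreducible U.charpoly ∧ Nice k U.charpoly ∧ U.charpoly ∉ Z)

/-- flexible splitting -/
def Flex {κ : Type*} [Fintype κ] [DecidableEq κ] (k T : ℕ) (D : Matrix κ κ F) : Prop :=
  ∀ Z : Finset F[X], Z.card ≤ T → Blk k Z D

lemma coprime_of_irred_ne {ι κ : Type*} [Fintype ι] [DecidableEq ι] [Fintype κ] [DecidableEq κ]
    (M : Matrix ι ι F) (N : Matrix κ κ F) (hM : Irreducible M.charpoly)
    (hN : Irreducible N.charpoly) (hne : M.charpoly ≠ N.charpoly) :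
    IsCoprime M.charpoly N.charpoly := by
  rw [hM.coprime_iff_not_dvd]
  intro hdvd
  have : Associated M.charpoly N.charpoly := hM.associated_of_dvd hN hdvd
  exact hne (eq_of_monic_of_associated M.charpoly_monic N.charpoly_monic this)

theorem sum_of_powers_of_blocks {ι α : Type*} [Fintype ι] [DecidableEq ι] [LinearOrder α]
    (k : ℕ) (A : Matrix ι ι F) (b : ι → α)
    (hA : ∀ a ∈ Finset.univ.image b,
      Flex k (2 * (Finset.univ.image b).card) (A.toSquareBlock b a)) :
    ∃ X Y : Matrix ι ι F, A = X ^ k + Y ^ k := by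
  classical
  set I := Finset.univ.image b with hI
  have key : ∀ S : Finset α, S ⊆ I → ∃ L U : (a : α) → Matrix {i // b i = a} {i // b i = a} F,
      (∀ a ∈ S, A.toSquareBlock b a = L a + U a ∧ (Irreducible (L a).charpoly ∧
        Nice k (L a).charpoly) ∧ (Irreducible (U a).charpoly ∧ Nice k (U a).charpoly)) ∧
      (∀ a ∈ S, ∀ c ∈ S, a ≠ c → (L a).charpoly ≠ (L c).charpoly ∧
        (U a).charpoly ≠ (U c).charpoly) := by
    intro S
    induction S using Finset.induction_on with
    | empty =>
      intro _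
      exact ⟨fun _ => 0, fun _ => 0, by simp, by simp⟩
    | insert a S ha ih =>
      intro hS
      obtain ⟨L, U, h1, h2⟩ := ih ((Finset.subset_insert a S).trans hS)
      have haI : a ∈ I := hS (Finset.mem_insert_self a S)
      set Z : Finset F[X] := S.image (fun c => (L c).charpoly) ∪ S.image (fun c => (U c).charpoly)
        with hZ
      have hZcard : Z.card ≤ 2 * I.card := by
        have h3 : Z.card ≤ S.card + S.card :=
          (Finset.card_union_le _ _).trans (Nat.add_le_add Finset.card_image_le Finset.card_image_le)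
        have h4 : S.card ≤ I.card := Finset.card_le_card ((Finset.subset_insert a S).trans hS)
        omega
      obtain ⟨L0, U0, hsum, hL0, hU0⟩ := hA a haI Z hZcard
      refine ⟨Function.update L a L0, Function.update U a U0, ?_, ?_⟩
      · intro c hc
        by_cases hca : c = a
        · subst hca
          rw [Function.update_self, Function.update_self]
          exact ⟨hsum, ⟨hL0.1, hL0.2.1⟩, ⟨hU0.1, hU0.2.1⟩⟩
        · rw [Function.update_of_ne hca, Function.update_of_ne hca]
          exact h1 c ((Finset.mem_insert.mp hc).resolve_left hca)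
      · intro c hc d hd hcd
        by_cases hca : c = a
        · subst hca
          have hdS : d ∈ S := (Finset.mem_insert.mp hd).resolve_left (Ne.symm hcd)
          rw [Function.update_self, Function.update_self, Function.update_of_ne (Ne.symm hcd),
            Function.update_of_ne (Ne.symm hcd)]
          refine ⟨fun h => hL0.2.2 ?_, fun h => hU0.2.2 ?_⟩
          · rw [h, hZ]
            exact Finset.mem_union_left _ (Finset.mem_image_of_mem _ hdS)
          · rw [h, hZ]
            exact Finset.mem_union_right _ (Finset.mem_image_of_mem _ hdS)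
        · by_cases hda : d = a
          · subst hda
            have hcS : c ∈ S := (Finset.mem_insert.mp hc).resolve_left hca
            rw [Function.update_self, Function.update_self, Function.update_of_ne hca,
              Function.update_of_ne hca]
            refine ⟨fun h => hL0.2.2 ?_, fun h => hU0.2.2 ?_⟩
            · rw [← h, hZ]
              exact Finset.mem_union_left _ (Finset.mem_image_of_mem _ hcS)
            · rw [← h, hZ]
              exact Finset.mem_union_right _ (Finset.mem_image_of_mem _ hcS)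
          · rw [Function.update_of_ne hca, Function.update_of_ne hca, Function.update_of_ne hda,
              Function.update_of_ne hda]
            exact h2 c ((Finset.mem_insert.mp hc).resolve_left hca) d
              ((Finset.mem_insert.mp hd).resolve_left hda) hcd
  obtain ⟨L, U, h1, h2⟩ := key I (Finset.Subset.refl _)
  set Lt : Matrix ι ι F := Matrix.of fun i j =>
    if h : b i = b j then L (b j) ⟨i, h⟩ ⟨j, rfl⟩ else if b j < b i then A i j else 0 with hLt
  set Ut : Matrix ι ι F := A - Lt with hUt
  have hLtri : (Lt.transpose).BlockTriangular b := by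
    intro i j hij
    simp only [Matrix.transpose_apply, hLt, Matrix.of_apply]
    rw [dif_neg hij.ne, if_neg hij.not_gt]
  have hUtri : Ut.BlockTriangular b := by
    intro i j hij
    simp only [hUt, Matrix.sub_apply, hLt, Matrix.of_apply]
    rw [dif_neg hij.ne', if_pos hij, sub_self]
  have hLblk : ∀ a, Lt.toSquareBlock b a = L a := by
    intro a
    ext ⟨i, hi⟩ ⟨j, hj⟩
    subst hj
    simp only [Matrix.toSquareBlock_def, Matrix.of_apply, hLt]
    rw [dif_pos hi]
  have hLblkT : ∀ a, Lt.transpose.toSquareBlock b a = (L a).transpose := by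
    intro a
    rw [← hLblk a]
    rfl
  have hUblk : ∀ a ∈ I, Ut.toSquareBlock b a = U a := by
    intro a ha
    have h3 : Ut.toSquareBlock b a = A.toSquareBlock b a - Lt.toSquareBlock b a := by
      ext i j
      simp [Matrix.toSquareBlock_def, hUt]
    rw [h3, hLblk, (h1 a ha).1]
    simp
  have hLch : Lt.charpoly = ∏ a ∈ I, (L a).charpoly := by
    rw [← Matrix.charpoly_transpose, hLtri.charpoly]
    refine Finset.prod_congr rfl fun a _ => ?_
    rw [hLblkT, Matrix.charpoly_transpose]
  have hUch : Ut.charpoly = ∏ a ∈ I, (U a).charpoly := by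
    rw [hUtri.charpoly]
    refine Finset.prod_congr rfl fun a ha => ?_
    rw [hUblk a ha]
  have hLnice : Nice k Lt.charpoly := by
    rw [hLch]
    refine Nice.prod I _ (fun a ha => (h1 a ha).2.1.2) ?_
    intro a ha c hc hac
    exact coprime_of_irred_ne _ _ (h1 a ha).2.1.1 (h1 c hc).2.1.1 (h2 a ha c hc hac).1
  have hUnice : Nice k Ut.charpoly := by
    rw [hUch]
    refine Nice.prod I _ (fun a ha => (h1 a ha).2.2.2) ?_
    intro a ha c hc hac
    exact coprime_of_irred_ne _ _ (h1 a ha).2.2.1 (h1 c hc).2.2.1 (h2 a ha c hc hac).2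
  obtain ⟨X, hX⟩ := exists_pow_of_nice Lt hLnice
  obtain ⟨Y, hY⟩ := exists_pow_of_nice Ut hUnice
  refine ⟨X, Y, ?_⟩
  rw [hX, hY, hUt]
  abel

end Pool.Agent.LarsenW
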