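import Mathlib

/-! Elementary count of solutions of `u + v = a` in a multiplicative subgroup of a finite field. -/

open Finset

namespace Pool.Agent.LarsenW

section
variable {E : Type*} [Field E] [Fintype E] [DecidableEq E]

/-- character sum over `H` -/
noncomputable def S (ψ : AddChar E ℂ) (H : Finset E) (b : E) : ℂ := ∑ h ∈ H, ψ (b * h)

lemma ringChar_pos' : 0 < ringChar E := by
  have : ringChar E ≠ 0 := by
    have := CharP.char_is_prime E (ringChar E)
    exact this.ne_zero
  omega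

lemma conj_psi (ψ : AddChar E ℂ) (x : E) : (starRingEnd ℂ) (ψ x) = ψ (-x) := by
  rw [AddChar.starComp_apply ringChar_pos', AddChar.inv_apply]

lemma parseval {ψ : AddChar E ℂ} (hψ : ψ.IsPrimitive) (H : Finset E) :
    ∑ b : E, ‖S ψ H b‖ ^ 2 = (Fintype.card E : ℝ) * H.card := by
  have key : ∑ b : E, (S ψ H b) * (starRingEnd ℂ) (S ψ H b) = ((Fintype.card E : ℂ) * H.card) := by
    have h1 : ∀ b : E, (S ψ H b) * (starRingEnd ℂ) (S ψ H b)
        = ∑ h ∈ H, ∑ h' ∈ H, ψ (b * (h - h')) := by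
      intro b
      simp only [S, map_sum, conj_psi]
      rw [Finset.sum_mul_sum]
      refine Finset.sum_congr rfl fun h _ => Finset.sum_congr rfl fun h' _ => ?_
      rw [← AddChar.map_add_eq_mul]
      congr 1
      ring
    simp_rw [h1]
    rw [Finset.sum_comm]
    have h2 : ∀ h ∈ H, ∑ b : E, ∑ h' ∈ H, ψ (b * (h - h')) = Fintype.card E := by
      intro h hh
      rw [Finset.sum_comm]
      have : ∀ h' ∈ H, ∑ b : E, ψ (b * (h - h')) = if h = h' then (Fintype.card E : ℂ) else 0 := by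
        intro h' _
        rw [AddChar.sum_mulShift _ hψ]
        simp only [sub_eq_zero]
        push_cast
        rfl
      rw [Finset.sum_congr rfl this, Finset.sum_ite_eq]
      simp [hh]
    rw [Finset.sum_congr rfl h2]
    simp [mul_comm]
  have h3 : ∑ b : E, (S ψ H b) * (starRingEnd ℂ) (S ψ H b) = ((∑ b : E, ‖S ψ H b‖ ^ 2 : ℝ) : ℂ) := by
    push_cast
    refine Finset.sum_congr rfl fun b _ => ?_
    rw [Complex.mul_conj, Complex.normSq_eq_norm_sq]
    push_cast
    rfl
  rw [h3] at key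
  exact_mod_cast key

lemma S_zero (ψ : AddChar E ℂ) (H : Finset E) : S ψ H 0 = H.card := by
  simp [S]

lemma S_mul_of_mem (ψ : AddChar E ℂ) (H : Finset E) (h0 : (0 : E) ∉ H)
    (hmul : ∀ h ∈ H, ∀ g ∈ H, h * g ∈ H) (hinv : ∀ h ∈ H, h⁻¹ ∈ H) (b : E) {g : E} (hg : g ∈ H) :
    S ψ H (b * g) = S ψ H b := by
  unfold S
  refine Finset.sum_bij' (fun h _ => g * h) (fun h _ => g⁻¹ * h) ?_ ?_ ?_ ?_ ?_
  · intro h hh; exact hmul g hg h hh
  · intro h hh; exact hmul _ (hinv g hg) h hh
  · intro h hh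
    have : g ≠ 0 := fun hg0 => h0 (hg0 ▸ hg)
    field_simp
  · intro h hh
    have : g ≠ 0 := fun hg0 => h0 (hg0 ▸ hg)
    field_simp
  · intro h hh
    rw [mul_assoc]

lemma S_bound {ψ : AddChar E ℂ} (hψ : ψ.IsPrimitive) (H : Finset E) (h0 : (0 : E) ∉ H)
    (hmul : ∀ h ∈ H, ∀ g ∈ H, h * g ∈ H) (hinv : ∀ h ∈ H, h⁻¹ ∈ H) (hne : H.Nonempty)
    {b : E} (hb : b ≠ 0) : ‖S ψ H b‖ ^ 2 ≤ Fintype.card E := by
  have h1 : (H.card : ℝ) * ‖S ψ H b‖ ^ 2 ≤ (Fintype.card E : ℝ) * H.card := by
    rw [← parseval hψ H]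
    have : (H.card : ℝ) * ‖S ψ H b‖ ^ 2 = ∑ x ∈ H.image (fun h => b * h), ‖S ψ H x‖ ^ 2 := by
      rw [Finset.sum_image]
      · rw [Finset.sum_congr rfl (fun g hg => by
          rw [S_mul_of_mem ψ H h0 hmul hinv b hg])]
        simp
      · intro x _ y _ hxy
        exact mul_left_cancel₀ hb hxy
    rw [this]
    exact Finset.sum_le_sum_of_subset_of_nonneg (Finset.subset_univ _) (fun _ _ _ => by positivity)
  have hpos : (0 : ℝ) < H.card := by exact_mod_cast hne.card_pos
  nlinarith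

/-- number of representations -/
lemma count_lower (H : Finset E) (h0 : (0 : E) ∉ H)
    (hmul : ∀ h ∈ H, ∀ g ∈ H, h * g ∈ H) (hinv : ∀ h ∈ H, h⁻¹ ∈ H) (hne : H.Nonempty)
    {a : E} (ha : a ≠ 0) :
    (H.card : ℝ) ^ 2 / Fintype.card E - Real.sqrt (Fintype.card E) ≤
      ((H.filter (fun u => a - u ∈ H)).card : ℝ) := by
  obtain ⟨ψ, hψ⟩ : ∃ ψ : AddChar E ℂ, ψ.IsPrimitive :=
    ⟨_, AddChar.FiniteField.primitiveChar_to_Complex_isPrimitive E⟩
  set N : ℕ := (H.filter (fun u => a - u ∈ H)).card with hN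
  have hQ : (0 : ℝ) < Fintype.card E := by exact_mod_cast Fintype.card_pos
  have hHpos : (0 : ℝ) < H.card := by exact_mod_cast hne.card_pos
  -- the trilinear sum
  have hT : ∑ b : E, S ψ H b * S ψ H b * S ψ H (b * (-a)) = ((Fintype.card E : ℂ) * H.card * N) := by
    have h1 : ∀ b : E, S ψ H b * S ψ H b * S ψ H (b * (-a))
        = ∑ w ∈ H, ∑ u ∈ H, ∑ v ∈ H, ψ (b * (u + v - a * w)) := by
      intro b
      unfold S
      rw [Finset.sum_mul_sum, Finset.sum_mul_sum, Finset.sum_comm]
      refine Finset.sum_congr rfl fun w _ => ?_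
      refine Finset.sum_congr rfl fun u _ => ?_
      rw [Finset.sum_mul]
      refine Finset.sum_congr rfl fun v _ => ?_
      rw [← AddChar.map_add_eq_mul, ← AddChar.map_add_eq_mul]
      congr 1
      ring
    simp_rw [h1]
    rw [Finset.sum_comm]
    have h2 : ∀ w ∈ H, ∑ b : E, ∑ u ∈ H, ∑ v ∈ H, ψ (b * (u + v - a * w))
        = (Fintype.card E : ℂ) * N := by
      intro w hw
      have hw0 : w ≠ 0 := fun h => h0 (h ▸ hw)
      rw [Finset.sum_comm]
      have h3 : ∀ u ∈ H, ∑ b : E, ∑ v ∈ H, ψ (b * (u + v - a * w))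
          = if a * w - u ∈ H then (Fintype.card E : ℂ) else 0 := by
        intro u hu
        rw [Finset.sum_comm]
        have h4 : ∀ v ∈ H, ∑ b : E, ψ (b * (u + v - a * w))
            = if v = a * w - u then (Fintype.card E : ℂ) else 0 := by
          intro v hv
          rw [AddChar.sum_mulShift _ hψ]
          have : (u + v - a * w = 0) ↔ (v = a * w - u) := by
            constructor
            · intro h; linear_combination h
            · intro h; linear_combination h
          simp only [this]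
          push_cast
          rfl
        rw [Finset.sum_congr rfl h4, Finset.sum_ite_eq']
      rw [Finset.sum_congr rfl h3, ← Finset.sum_filter, Finset.sum_const, nsmul_eq_mul, mul_comm]
      congr 1
      rw [hN]
      norm_cast
      refine Finset.card_bij' (fun u _ => u * w⁻¹) (fun u _ => u * w) ?_ ?_ ?_ ?_
      · intro u hu
        rw [Finset.mem_filter] at hu ⊢
        refine ⟨hmul _ hu.1 _ (hinv _ hw), ?_⟩
        have : a - u * w⁻¹ = (a * w - u) * w⁻¹ := by field_simp
        rw [this]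
        exact hmul _ hu.2 _ (hinv _ hw)
      · intro u hu
        rw [Finset.mem_filter] at hu ⊢
        refine ⟨hmul _ hu.1 _ hw, ?_⟩
        have : a * w - u * w = (a - u) * w := by ring
        rw [this]
        exact hmul _ hu.2 _ hw
      · intro u hu
        field_simp
      · intro u hu
        field_simp
    rw [Finset.sum_congr rfl h2]
    simp only [Finset.sum_const, nsmul_eq_mul]
    ring
  -- split off b = 0
  have hsplit : ∑ b : E, S ψ H b * S ψ H b * S ψ H (b * (-a))
      = (H.card : ℂ) ^ 3 + ∑ b ∈ Finset.univ.erase (0 : E), S ψ H b * S ψ H b * S ψ H (b * (-a)) := by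
    rw [← Finset.add_sum_erase _ _ (Finset.mem_univ (0 : E))]
    simp only [zero_mul, S_zero]
    ring
  have herr : ‖∑ b ∈ Finset.univ.erase (0 : E), S ψ H b * S ψ H b * S ψ H (b * (-a))‖
      ≤ Real.sqrt (Fintype.card E) * ((Fintype.card E : ℝ) * H.card) := by
    refine (norm_sum_le _ _).trans ?_
    have : ∀ b ∈ Finset.univ.erase (0 : E), ‖S ψ H b * S ψ H b * S ψ H (b * (-a))‖
        ≤ Real.sqrt (Fintype.card E) * ‖S ψ H b‖ ^ 2 := by
      intro b hb
      have hb0 : b ≠ 0 := (Finset.mem_erase.mp hb).1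
      have h5 := S_bound hψ H h0 hmul hinv hne (b := b * (-a)) (mul_ne_zero hb0 (neg_ne_zero.mpr ha))
      have h6 : ‖S ψ H (b * (-a))‖ ≤ Real.sqrt (Fintype.card E) := Real.le_sqrt_of_sq_le h5
      rw [norm_mul, norm_mul]
      nlinarith [norm_nonneg (S ψ H b), sq_nonneg (‖S ψ H b‖)]
    refine (Finset.sum_le_sum this).trans ?_
    rw [← Finset.mul_sum]
    refine mul_le_mul_of_nonneg_left ?_ (Real.sqrt_nonneg _)
    rw [← parseval hψ H]
    exact Finset.sum_le_sum_of_subset_of_nonneg (Finset.subset_univ _) (fun _ _ _ => by positivity)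
  have h7 : (∑ b ∈ Finset.univ.erase (0 : E), S ψ H b * S ψ H b * S ψ H (b * (-a)))
      = (((Fintype.card E : ℝ) * H.card * N - (H.card : ℝ) ^ 3 : ℝ) : ℂ) := by
    rw [hsplit] at hT
    push_cast
    linear_combination hT
  rw [h7, Complex.norm_real, Real.norm_eq_abs] at herr
  have h8 := (abs_le.mp herr).1
  have h9 : (H.card : ℝ) * ((H.card : ℝ) ^ 2 - Fintype.card E * Real.sqrt (Fintype.card E))
      ≤ H.card * (Fintype.card E * N) := by nlinarith
  have h10 := le_of_mul_le_mul_left h9 hHpos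
  rw [div_sub' hQ.ne', div_le_iff₀ hQ]
  linarith
end

end Pool.Agent.LarsenW
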