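import Mathlib
import Pool.Agent.LarsenW.Count

/-! `k`-th powers in a finite field: lower bound for the number of `β` with `β` and `δ - β` both
`k`-th powers, and the numerical threshold. -/

open Finset

namespace Pool.Agent.LarsenW

section
variable {E : Type*} [Field E] [Fintype E] [DecidableEq E]

lemma kth_count (k : ℕ) (hk : 1 ≤ k) (δ : E) (hδ : δ ≠ 0 ∨ (2 : E) = 0) :
    ((Fintype.card E : ℝ) - 1) ^ 2 / (k ^ 2 * Fintype.card E) - Real.sqrt (Fintype.card E) ≤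
      ((Finset.univ.filter (fun β : E => (∃ x : E, x ^ k = β) ∧ ∃ y : E, y ^ k = δ - β)).card : ℝ) := by
  classical
  set U : Finset E := Finset.univ.erase 0 with hU
  set H : Finset E := U.image (fun x => x ^ k) with hH
  have hkne : k ≠ 0 := by omega
  have hkR : (0 : ℝ) < k := by exact_mod_cast hk
  have hQ1 : 1 < Fintype.card E := Fintype.one_lt_card
  have hQ : (1 : ℝ) < Fintype.card E := by exact_mod_cast hQ1
  have h0 : (0 : E) ∉ H := by
    intro h
    rw [hH, Finset.mem_image] at h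
    obtain ⟨x, hx, hx0⟩ := h
    exact (Finset.mem_erase.mp hx).1 (eq_zero_of_pow_eq_zero hx0)
  have hmul : ∀ h ∈ H, ∀ g ∈ H, h * g ∈ H := by
    intro h hh g hg
    rw [hH, Finset.mem_image] at hh hg ⊢
    obtain ⟨x, hx, rfl⟩ := hh
    obtain ⟨y, hy, rfl⟩ := hg
    refine ⟨x * y, ?_, by rw [mul_pow]⟩
    rw [hU, Finset.mem_erase] at hx hy ⊢
    exact ⟨mul_ne_zero hx.1 hy.1, Finset.mem_univ _⟩
  have hinv : ∀ h ∈ H, h⁻¹ ∈ H := by
    intro h hh
    rw [hH, Finset.mem_image] at hh ⊢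
    obtain ⟨x, hx, rfl⟩ := hh
    refine ⟨x⁻¹, ?_, by rw [inv_pow]⟩
    rw [hU, Finset.mem_erase] at hx ⊢
    exact ⟨inv_ne_zero hx.1, Finset.mem_univ _⟩
  have hne : H.Nonempty := ⟨1, by
    rw [hH, Finset.mem_image]
    exact ⟨1, by rw [hU, Finset.mem_erase]; exact ⟨one_ne_zero, Finset.mem_univ _⟩, by simp⟩⟩
  have hcard : Fintype.card E - 1 ≤ k * H.card := by
    have h1 : U.card = Fintype.card E - 1 := by
      rw [hU, Finset.card_erase_of_mem (Finset.mem_univ _), Finset.card_univ]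
    rw [← h1, hH]
    refine Finset.card_le_mul_card_image (f := fun x : E => x ^ k) U k ?_
    intro b hb
    refine le_trans (Finset.card_le_card (t := (Polynomial.nthRoots k b).toFinset) ?_) ?_
    · intro x hx
      rw [Finset.mem_filter] at hx
      rw [Multiset.mem_toFinset, Polynomial.mem_nthRoots (by omega)]
      exact hx.2
    · exact (Multiset.toFinset_card_le _).trans (Polynomial.card_nthRoots k b)
  have hcardR : ((Fintype.card E : ℝ) - 1) / k ≤ H.card := by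
    rw [div_le_iff₀ hkR]
    have : (((Fintype.card E - 1 : ℕ)) : ℝ) ≤ ((k * H.card : ℕ) : ℝ) := by exact_mod_cast hcard
    rw [Nat.cast_sub hQ1.le] at this
    push_cast at this
    linarith
  have hcard2 : ((Fintype.card E : ℝ) - 1) ^ 2 / (k ^ 2 * Fintype.card E)
      ≤ (H.card : ℝ) ^ 2 / Fintype.card E := by
    have h1 : ((Fintype.card E : ℝ) - 1) ^ 2 / (k ^ 2 * Fintype.card E)
        = (((Fintype.card E : ℝ) - 1) / k) ^ 2 / Fintype.card E := by
      field_simp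
    rw [h1]
    have : 0 ≤ ((Fintype.card E : ℝ) - 1) / k := div_nonneg (by linarith) hkR.le
    gcongr
  by_cases hδ0 : δ = 0
  · -- characteristic two
    have h2 : (2 : E) = 0 := by
      rcases hδ with h | h
      · exact absurd hδ0 h
      · exact h
    have hneg : ∀ x : E, -x = x := by
      intro x
      have : (2 : E) * x = 0 := by rw [h2, zero_mul]
      linear_combination (-1 : E) * this
    have hsub : H ⊆ Finset.univ.filter (fun β : E => (∃ x : E, x ^ k = β) ∧ ∃ y : E, y ^ k = δ - β) := by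
      intro β hβ
      rw [hH, Finset.mem_image] at hβ
      obtain ⟨x, _, rfl⟩ := hβ
      rw [Finset.mem_filter]
      refine ⟨Finset.mem_univ _, ⟨x, rfl⟩, ⟨x, ?_⟩⟩
      simp [hδ0, hneg]
    have h3 : (H.card : ℝ) ≤ ((Finset.univ.filter
        (fun β : E => (∃ x : E, x ^ k = β) ∧ ∃ y : E, y ^ k = δ - β)).card : ℝ) := by
      exact_mod_cast Finset.card_le_card hsub
    have h4 : (H.card : ℝ) ^ 2 / Fintype.card E ≤ H.card := by
      rw [div_le_iff₀ (by linarith)]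
      have : (H.card : ℝ) ≤ Fintype.card E := by exact_mod_cast Finset.card_le_univ H
      nlinarith [(Nat.cast_nonneg H.card : (0 : ℝ) ≤ H.card)]
    have := Real.sqrt_nonneg (Fintype.card E : ℝ)
    linarith
  · have h5 := count_lower H h0 hmul hinv hne hδ0
    have hsub : H.filter (fun u => δ - u ∈ H) ⊆
        Finset.univ.filter (fun β : E => (∃ x : E, x ^ k = β) ∧ ∃ y : E, y ^ k = δ - β) := by
      intro β hβ
      rw [Finset.mem_filter] at hβ ⊢
      obtain ⟨h1, h2⟩ := hβ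
      rw [hH, Finset.mem_image] at h1 h2
      obtain ⟨x, _, hx⟩ := h1
      obtain ⟨y, _, hy⟩ := h2
      exact ⟨Finset.mem_univ _, ⟨x, hx⟩, ⟨y, hy⟩⟩
    have h6 : ((H.filter (fun u => δ - u ∈ H)).card : ℝ) ≤ ((Finset.univ.filter
        (fun β : E => (∃ x : E, x ^ k = β) ∧ ∃ y : E, y ^ k = δ - β)).card : ℝ) := by
      exact_mod_cast Finset.card_le_card hsub
    linarith

end

/-- numerical threshold -/
lemma threshold (k T : ℕ) (hk : 1 ≤ k) : 10 ≤ (1000 * k ^ 2 * (T + 1)) ^ 4 ∧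
    ∀ Q m : ℕ, (1000 * k ^ 2 * (T + 1)) ^ 4 ≤ Q → 2 ^ m ≤ Q →
    (3 * m : ℝ) * Real.sqrt Q + 2 * T * m < ((Q : ℝ) - 1) ^ 2 / (k ^ 2 * Q) - Real.sqrt Q := by
  refine ⟨?_, ?_⟩
  · have : 1 ≤ k ^ 2 * (T + 1) := Nat.one_le_iff_ne_zero.mpr (by positivity)
    calc 10 ≤ 1000 ^ 4 := by norm_num
      _ ≤ (1000 * k ^ 2 * (T + 1)) ^ 4 := Nat.pow_le_pow_left (by nlinarith) 4
  intro Q m hQ hm
  set s : ℝ := Real.sqrt (Real.sqrt Q) with hs
  have hQ0 : (0 : ℝ) ≤ Q := Nat.cast_nonneg _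
  have hs2 : s ^ 2 = Real.sqrt Q := Real.sq_sqrt (Real.sqrt_nonneg _)
  have hs4 : s ^ 4 = Q := by
    calc s ^ 4 = (s ^ 2) ^ 2 := by ring
      _ = (Q : ℝ) := by rw [hs2, Real.sq_sqrt hQ0]
  have hs0 : 0 ≤ s := Real.sqrt_nonneg _
  have hk1 : (1 : ℝ) ≤ k := by exact_mod_cast hk
  have hT0 : (0 : ℝ) ≤ T := Nat.cast_nonneg _
  have hsbig : 1000 * (k : ℝ) ^ 2 * (T + 1) ≤ s := by
    have h1 : (1000 * (k : ℝ) ^ 2 * (T + 1)) ^ 4 ≤ s ^ 4 := by
      rw [hs4]
      exact_mod_cast hQ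
    exact le_of_pow_le_pow_left₀ (by norm_num) hs0 h1
  have hk2 : (1 : ℝ) ≤ (k : ℝ) ^ 2 := by nlinarith
  have hs1000 : 1000 ≤ s := by nlinarith
  have hm4 : (m : ℝ) ≤ 4 * s := by
    by_cases hm4 : m < 4
    · have : (m : ℝ) ≤ 4 := by exact_mod_cast hm4.le
      linarith
    · have h1 : (1 : ℝ) ≤ (m : ℝ) / 4 := by
        rw [le_div_iff₀ (by norm_num)]
        push Not at hm4
        have : (4 : ℝ) ≤ m := by exact_mod_cast hm4
        linarith
      have h2 := one_add_mul_self_le_rpow_one_add (s := (1 : ℝ)) (by norm_num) h1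
      have h3 : ((1 + 1 : ℝ) ^ ((m : ℝ) / 4)) ^ 4 ≤ s ^ 4 := by
        rw [← Real.rpow_natCast, ← Real.rpow_mul (by norm_num), hs4]
        have : (m : ℝ) / 4 * ((4 : ℕ) : ℝ) = m := by push_cast; ring
        rw [this, Real.rpow_natCast]
        norm_num
        exact_mod_cast hm
      have h4 : (1 + 1 : ℝ) ^ ((m : ℝ) / 4) ≤ s :=
        le_of_pow_le_pow_left₀ (by norm_num) hs0 h3
      linarith
  rw [← hs2, ← hs4]
  have hkpos : (0 : ℝ) < (k : ℝ) ^ 2 := by positivity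
  have hspos : (0 : ℝ) < s := by linarith
  have h5 : (s ^ 4 - 2) / (k : ℝ) ^ 2 ≤ (s ^ 4 - 1) ^ 2 / (k ^ 2 * s ^ 4) := by
    rw [div_le_div_iff₀ hkpos (by positivity)]
    have : 0 ≤ (k : ℝ) ^ 2 := hkpos.le
    nlinarith
  have h6 : (3 * (m : ℝ)) * s ^ 2 + 2 * T * m + s ^ 2 ≤ 13 * s ^ 3 + 8 * T * s := by
    have h7 : (3 * (m : ℝ)) * s ^ 2 ≤ 12 * s ^ 3 := by nlinarith [sq_nonneg s]
    have h8 : 2 * (T : ℝ) * m ≤ 8 * T * s := by nlinarith
    have h9 : s ^ 2 ≤ s ^ 3 := by nlinarith [sq_nonneg s]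
    linarith
  have h10 : 13 * s ^ 3 + 8 * T * s < (s ^ 4 - 2) / (k : ℝ) ^ 2 := by
    rw [lt_div_iff₀ hkpos]
    have h11 : (13 * s ^ 3 + 8 * T * s) ≤ (13 + 8 * T) * s ^ 3 := by
      have : s ≤ s ^ 3 := by nlinarith [sq_nonneg s]
      nlinarith
    have h12 : (13 * s ^ 3 + 8 * T * s) * (k : ℝ) ^ 2 ≤ ((13 + 8 * T) * (k : ℝ) ^ 2) * s ^ 3 := by
      nlinarith
    have h13 : (13 + 8 * (T : ℝ)) * (k : ℝ) ^ 2 ≤ s / 50 := by nlinarith
    have h14 : ((13 + 8 * (T : ℝ)) * (k : ℝ) ^ 2) * s ^ 3 ≤ s / 50 * s ^ 3 := by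
      have : 0 ≤ s ^ 3 := by positivity
      nlinarith
    have h15 : s / 50 * s ^ 3 < s ^ 4 - 2 := by
      have h16 : 1 ≤ s ^ 3 := one_le_pow₀ (by linarith)
      have : 1000 ≤ s ^ 4 := by
        calc (1000 : ℝ) ≤ s := hs1000
          _ = s * 1 := by ring
          _ ≤ s * s ^ 3 := by gcongr
          _ = s ^ 4 := by ring
      have h17 : s / 50 * s ^ 3 = s ^ 4 / 50 := by ring
      rw [h17]
      linarith
    linarith
  linarith

end Pool.Agent.LarsenW
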