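import Mathlib
import Pool.Agent.LarsenW.Kth

/-! Selection of `k`-th powers `β, γ` with `β + γ = δ`, both generating `E / F`, avoiding a finite
set of minimal polynomials. -/

open Finset Polynomial

namespace Pool.Agent.LarsenW

section
variable {F E : Type*} [Field F] [Fintype F] [Field E] [Fintype E] [Algebra F E]

lemma card_fix_sq (σ : E ≃ₐ[F] E) (hσ : σ ≠ 1) [DecidableEq E] (ε : E) :
    ((Finset.univ.filter (fun β : E => σ β = β + ε)).card) ^ 2 ≤ Fintype.card E := by
  classical
  set s := Finset.univ.filter (fun β : E => σ β = β + ε) with hs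
  by_cases hne : s.Nonempty
  · obtain ⟨β0, hβ0⟩ := hne
    have hβ0' : σ β0 = β0 + ε := (Finset.mem_filter.mp hβ0).2
    set K : IntermediateField F E := IntermediateField.fixedField (Subgroup.zpowers σ) with hK
    have hmem : ∀ x : E, σ x = x → x ∈ K := by
      intro x hx
      rw [hK, IntermediateField.mem_fixedField_iff]
      intro f hf
      obtain ⟨n, rfl⟩ := Subgroup.mem_zpowers_iff.mp hf
      have h1 : σ ∈ MulAction.stabilizer (E ≃ₐ[F] E) x := hx
      exact Subgroup.zpow_mem _ h1 n
    have hcard : s.card ≤ Fintype.card K := by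
      rw [← Fintype.card_coe]
      refine Fintype.card_le_of_injective
        (fun y : s => (⟨y.1 - β0, hmem _ ?_⟩ : K)) ?_
      · have := (Finset.mem_filter.mp y.2).2
        rw [map_sub, this, hβ0']
        ring
      · intro y z hyz
        have := congrArg (fun t : K => (t : E)) hyz
        simp only [sub_left_inj] at this
        exact Subtype.ext this
    have hfin : Module.finrank K E = Nat.card (Subgroup.zpowers σ) :=
      IntermediateField.finrank_fixedField_eq_card _
    have h2 : 2 ≤ Module.finrank K E := by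
      rw [hfin, Nat.card_zpowers]
      have h3 : orderOf σ ≠ 1 := by
        rw [Ne, orderOf_eq_one_iff]; exact hσ
      have h4 : 0 < orderOf σ := orderOf_pos σ
      omega
    have h5 : Fintype.card E = Fintype.card K ^ Module.finrank K E :=
      Module.card_eq_pow_finrank
    rw [h5]
    calc s.card ^ 2 ≤ Fintype.card K ^ 2 := Nat.pow_le_pow_left hcard 2
      _ ≤ Fintype.card K ^ Module.finrank K E :=
        Nat.pow_le_pow_right Fintype.card_pos h2
  · rw [Finset.not_nonempty_iff_eq_empty.mp hne]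
    simp

lemma card_fix_le (σ : E ≃ₐ[F] E) (hσ : σ ≠ 1) [DecidableEq E] (ε : E) :
    ((Finset.univ.filter (fun β : E => σ β = β + ε)).card : ℝ) ≤ Real.sqrt (Fintype.card E) := by
  refine Real.le_sqrt_of_sq_le ?_
  exact_mod_cast card_fix_sq σ hσ ε

lemma natDegree_minpoly_eq (β : E) (h : ∀ σ : E ≃ₐ[F] E, σ ≠ 1 → σ β ≠ β) :
    (minpoly F β).natDegree = Module.finrank F E := by
  rw [← Field.primitive_element_iff_minpoly_natDegree_eq]
  have h1 : IntermediateField.fixingSubgroup (IntermediateField.adjoin F {β}) = ⊥ := by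
    rw [eq_bot_iff]
    intro σ hσ
    rw [Subgroup.mem_bot]
    by_contra hne
    refine h σ hne ?_
    rw [IntermediateField.mem_fixingSubgroup_iff] at hσ
    exact hσ β (IntermediateField.mem_adjoin_simple_self F β)
  have h2 := IsGalois.fixedField_fixingSubgroup (IntermediateField.adjoin F {β})
  rw [← h2, h1]
  exact IntermediateField.fixedField_bot

lemma card_minpoly_mem_le [DecidableEq E] [DecidableEq F[X]] (Z : Finset F[X]) :
    (Finset.univ.filter (fun β : E => minpoly F β ∈ Z)).card ≤ Z.card * Module.finrank F E := by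
  have h1 : Finset.univ.filter (fun β : E => minpoly F β ∈ Z)
      = Z.biUnion (fun z => Finset.univ.filter (fun β : E => minpoly F β = z)) := by
    ext β
    simp
  rw [h1]
  refine Finset.card_biUnion_le_card_mul _ _ _ ?_
  intro z hz
  by_cases hne : (Finset.univ.filter (fun β : E => minpoly F β = z)).Nonempty
  · obtain ⟨β0, hβ0⟩ := hne
    have hβ0' : minpoly F β0 = z := (Finset.mem_filter.mp hβ0).2
    have hz0 : z ≠ 0 := by
      rw [← hβ0']; exact minpoly.ne_zero_of_finite F β0
    have hzmap : z.map (algebraMap F E) ≠ 0 := by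
      rwa [Ne, Polynomial.map_eq_zero]
    calc (Finset.univ.filter (fun β : E => minpoly F β = z)).card
        ≤ (z.map (algebraMap F E)).roots.toFinset.card := by
          refine Finset.card_le_card ?_
          intro β hβ
          have hβ' : minpoly F β = z := (Finset.mem_filter.mp hβ).2
          rw [Multiset.mem_toFinset, Polynomial.mem_roots hzmap, Polynomial.IsRoot,
            Polynomial.eval_map_algebraMap, ← hβ']
          exact minpoly.aeval F β
      _ ≤ Multiset.card (z.map (algebraMap F E)).roots := Multiset.toFinset_card_le _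
      _ ≤ (z.map (algebraMap F E)).natDegree := Polynomial.card_roots' _
      _ = z.natDegree := Polynomial.natDegree_map _
      _ ≤ Module.finrank F E := by
          rw [← hβ0']
          exact minpoly.natDegree_le β0
  · rw [Finset.not_nonempty_iff_eq_empty.mp hne]
    simp

/-- The selection lemma. -/
lemma select (k T : ℕ) (hk : 1 ≤ k) (Q0 : ℕ)
    (hthr : ∀ Q m : ℕ, Q0 ≤ Q → 2 ^ m ≤ Q →
      (3 * m : ℝ) * Real.sqrt Q + 2 * T * m < ((Q : ℝ) - 1) ^ 2 / (k ^ 2 * Q) - Real.sqrt Q)
    (hQ : Q0 ≤ Fintype.card E) (δ ε : E) (hδ : δ ≠ 0 ∨ (2 : E) = 0) (hε : ε ≠ 0)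
    (Z : Finset F[X]) (hZ : Z.card ≤ T) :
    ∃ β γ : E, β + γ = δ ∧ (∃ x : E, x ^ k = β) ∧ (∃ y : E, y ^ k = γ) ∧
      (∀ σ : E ≃ₐ[F] E, σ ≠ 1 → σ β ≠ β) ∧ (∀ σ : E ≃ₐ[F] E, σ ≠ 1 → σ γ ≠ γ) ∧
      minpoly F β ∉ Z ∧ minpoly F γ ∉ Z ∧ minpoly F (β + ε) ≠ minpoly F β := by
  classical
  set m := Module.finrank F E with hm
  set Q := Fintype.card E with hQdef
  have hcardQ : Q = Fintype.card F ^ m := Module.card_eq_pow_finrank
  have hq2 : 2 ≤ Fintype.card F := Fintype.one_lt_card
  have h2m : 2 ^ m ≤ Q := by rw [hcardQ]; exact Nat.pow_le_pow_left hq2 m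
  have hthr' := hthr Q m hQ h2m
  have hcount := kth_count k hk δ hδ
  set G := Finset.univ.filter (fun β : E => (∃ x : E, x ^ k = β) ∧ ∃ y : E, y ^ k = δ - β) with hG
  set NT : Finset (E ≃ₐ[F] E) := Finset.univ.erase 1 with hNT
  have hNTcard : NT.card ≤ m := by
    rw [hNT]
    refine (Finset.card_le_card (Finset.erase_subset _ _)).trans ?_
    rw [Finset.card_univ, hm, ← IsGalois.card_aut_eq_finrank, Nat.card_eq_fintype_card]
  set B1 := NT.biUnion (fun σ => Finset.univ.filter (fun β : E => σ β = β + 0)) with hB1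
  set B2 := NT.biUnion (fun σ => Finset.univ.filter (fun β : E => σ β = β + ε)) with hB2
  set B3 := NT.biUnion (fun σ => Finset.univ.filter (fun β : E => σ β = β + (σ δ - δ))) with hB3
  set B4 := Finset.univ.filter (fun β : E => minpoly F β ∈ Z) with hB4
  set B5 := (Finset.univ.filter (fun β : E => minpoly F β ∈ Z)).image (fun β => δ - β) with hB5
  have hcB : ∀ (e : (E ≃ₐ[F] E) → E), ((NT.biUnion
      (fun σ => Finset.univ.filter (fun β : E => σ β = β + e σ))).card : ℝ) ≤ m * Real.sqrt Q := by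
    intro e
    have h1 : ((NT.biUnion (fun σ => Finset.univ.filter (fun β : E => σ β = β + e σ))).card : ℝ)
        ≤ ∑ σ ∈ NT, ((Finset.univ.filter (fun β : E => σ β = β + e σ)).card : ℝ) := by
      exact_mod_cast Finset.card_biUnion_le
    refine h1.trans ?_
    have h2 : ∑ σ ∈ NT, ((Finset.univ.filter (fun β : E => σ β = β + e σ)).card : ℝ)
        ≤ ∑ σ ∈ NT, Real.sqrt Q := by
      refine Finset.sum_le_sum fun σ hσ => ?_
      exact card_fix_le σ (Finset.mem_erase.mp hσ).1 (e σ)
    refine h2.trans ?_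
    rw [Finset.sum_const, nsmul_eq_mul]
    have : (NT.card : ℝ) ≤ m := by exact_mod_cast hNTcard
    exact mul_le_mul_of_nonneg_right this (Real.sqrt_nonneg _)
  have hcB1 : (B1.card : ℝ) ≤ m * Real.sqrt Q := hcB (fun _ => 0)
  have hcB2 : (B2.card : ℝ) ≤ m * Real.sqrt Q := hcB (fun _ => ε)
  have hcB3 : (B3.card : ℝ) ≤ m * Real.sqrt Q := hcB (fun σ => σ δ - δ)
  have hcB4 : (B4.card : ℝ) ≤ T * m := by
    have h1 : B4.card ≤ Z.card * m := card_minpoly_mem_le Z
    have h2 : Z.card * m ≤ T * m := Nat.mul_le_mul_right m hZ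
    exact_mod_cast h1.trans h2
  have hcB5 : (B5.card : ℝ) ≤ T * m := by
    have h1 : B5.card ≤ B4.card := Finset.card_image_le
    have : (B5.card : ℝ) ≤ B4.card := by exact_mod_cast h1
    linarith
  set B := B1 ∪ B2 ∪ B3 ∪ B4 ∪ B5 with hB
  have hcardB : (B.card : ℝ) ≤ 3 * m * Real.sqrt Q + 2 * T * m := by
    have h1 : B.card ≤ B1.card + B2.card + B3.card + B4.card + B5.card := by
      calc B.card ≤ (B1 ∪ B2 ∪ B3 ∪ B4).card + B5.card := Finset.card_union_le _ _
        _ ≤ (B1 ∪ B2 ∪ B3).card + B4.card + B5.card := by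
            gcongr; exact Finset.card_union_le _ _
        _ ≤ (B1 ∪ B2).card + B3.card + B4.card + B5.card := by
            gcongr; exact Finset.card_union_le _ _
        _ ≤ B1.card + B2.card + B3.card + B4.card + B5.card := by
            gcongr; exact Finset.card_union_le _ _
    have h2 : (B.card : ℝ) ≤ B1.card + B2.card + B3.card + B4.card + B5.card := by
      exact_mod_cast h1
    linarith
  have hlt : B.card < G.card := by
    have : (B.card : ℝ) < G.card := by linarith
    exact_mod_cast this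
  obtain ⟨β, hβG, hβB⟩ : ∃ β ∈ G, β ∉ B := by
    by_contra hcon
    push Not at hcon
    exact absurd (Finset.card_le_card hcon) (by omega)
  have hβG' := (Finset.mem_filter.mp hβG).2
  simp only [hB, Finset.mem_union, not_or] at hβB
  obtain ⟨⟨⟨⟨h1, h2⟩, h3⟩, h4⟩, h5⟩ := hβB
  refine ⟨β, δ - β, by ring, hβG'.1, hβG'.2, ?_, ?_, ?_, ?_, ?_⟩
  · intro σ hσ hfix
    apply h1
    rw [hB1, Finset.mem_biUnion]
    exact ⟨σ, Finset.mem_erase.mpr ⟨hσ, Finset.mem_univ _⟩,
      Finset.mem_filter.mpr ⟨Finset.mem_univ _, by rw [hfix, add_zero]⟩⟩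
  · intro σ hσ hfix
    apply h3
    rw [hB3, Finset.mem_biUnion]
    refine ⟨σ, Finset.mem_erase.mpr ⟨hσ, Finset.mem_univ _⟩,
      Finset.mem_filter.mpr ⟨Finset.mem_univ _, ?_⟩⟩
    rw [map_sub] at hfix
    linear_combination -hfix
  · intro hmem
    apply h4
    rw [hB4, Finset.mem_filter]
    exact ⟨Finset.mem_univ _, hmem⟩
  · intro hmem
    apply h5
    rw [hB5, Finset.mem_image]
    exact ⟨δ - β, Finset.mem_filter.mpr ⟨Finset.mem_univ _, hmem⟩, by ring⟩
  · intro heq
    have hconj : IsConjRoot F (β + ε) β := heq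
    rw [isConjRoot_iff_exists_algEquiv] at hconj
    obtain ⟨σ, hσ⟩ := hconj
    apply h2
    rw [hB2, Finset.mem_biUnion]
    refine ⟨σ, Finset.mem_erase.mpr ⟨?_, Finset.mem_univ _⟩,
      Finset.mem_filter.mpr ⟨Finset.mem_univ _, hσ⟩⟩
    intro h1'
    rw [h1', AlgEquiv.one_apply] at hσ
    exact hε (by linear_combination -hσ)

end

end Pool.Agent.LarsenW
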