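import Mathlib
import Pool.Agent.LarsenW.Select
import Pool.Agent.LarsenW.Blocks

/-! Flexible splitting of `λ + (single column)`. -/

open Finset Polynomial

namespace Pool.Agent.LarsenW

lemma charpoly_eq_of {F κ : Type*} [Field F] [Fintype κ] [DecidableEq κ] [Nonempty κ]
    (M : Matrix κ κ F) (f : F[X]) (hf : Irreducible f) (hm : f.Monic)
    (hd : f.natDegree = Fintype.card κ) (ha : aeval M f = 0) : M.charpoly = f := by
  have h1 : f = minpoly F M := minpoly.eq_of_irreducible_of_monic hf ha hm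
  have h2 : f ∣ M.charpoly := by
    rw [h1]; exact Matrix.minpoly_dvd_charpoly M
  refine (Polynomial.eq_of_monic_of_dvd_of_natDegree_le hm M.charpoly_monic h2 ?_)
  rw [Matrix.charpoly_natDegree_eq_dim, hd]

/-- existence of a functional -/
lemma exists_dual {F κ : Type*} [Field F] [Fintype κ] [DecidableEq κ] (w w' : κ → F) (hw : w ≠ 0)
    (hw' : w' ≠ 0) : ∃ ψ : (κ → F) →ₗ[F] F, ψ w' = 1 ∧ ψ w ≠ 0 := by
  obtain ⟨i, hi⟩ := Function.ne_iff.mp hw'
  obtain ⟨j, hj⟩ := Function.ne_iff.mp hw
  simp only [Pi.zero_apply] at hi hj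
  by_cases hwi : w i ≠ 0
  · refine ⟨(w' i)⁻¹ • LinearMap.proj i, ?_, ?_⟩
    · simp [hi]
    · simp [hi, hwi]
  · push Not at hwi
    by_cases hwj : w' j ≠ 0
    · refine ⟨(w' j)⁻¹ • LinearMap.proj j, ?_, ?_⟩
      · simp [hwj]
      · simp [hwj, hj]
    · push Not at hwj
      refine ⟨(w' i)⁻¹ • LinearMap.proj i + LinearMap.proj j, ?_, ?_⟩
      · simp [hi, hwj]
      · simp [hwi, hj]

/-- transvection moving `w'` to `w` and preserving coordinate `c` -/
lemma exists_transvection {F κ : Type*} [Field F] [Fintype κ] [DecidableEq κ] (c : κ)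
    (w w' : κ → F) (hw : w ≠ 0) (hw' : w' ≠ 0) (hc : w' c = w c) :
    ∃ P : (κ → F) ≃ₗ[F] (κ → F), P w' = w ∧ ∀ x, (P x) c = x c := by
  obtain ⟨ψ, h1, h2⟩ := exists_dual w w' hw hw'
  set f : (κ → F) →ₗ[F] (κ → F) := LinearMap.id + ψ.smulRight (w - w') with hf
  set g : (κ → F) →ₗ[F] (κ → F) := LinearMap.id - (ψ w)⁻¹ • ψ.smulRight (w - w') with hg
  have hfx : ∀ x, f x = x + ψ x • (w - w') := fun x => by simp [hf]
  have hgx : ∀ x, g x = x - (ψ w)⁻¹ • ψ x • (w - w') := fun x => by simp [hg]
  have hψd : ψ (w - w') = ψ w - 1 := by rw [map_sub, h1]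
  have hfg : f ∘ₗ g = LinearMap.id := by
    apply LinearMap.ext
    intro x
    funext i
    simp only [LinearMap.comp_apply, LinearMap.id_apply, hfx, hgx, map_sub, map_smul, h1,
      smul_eq_mul, Pi.add_apply, Pi.sub_apply, Pi.smul_apply]
    field_simp
    ring
  have hgf : g ∘ₗ f = LinearMap.id := by
    apply LinearMap.ext
    intro x
    funext i
    simp only [LinearMap.comp_apply, LinearMap.id_apply, hfx, hgx, map_sub, map_add, map_smul, h1,
      smul_eq_mul, Pi.add_apply, Pi.sub_apply, Pi.smul_apply]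
    field_simp
    ring
  refine ⟨LinearEquiv.ofLinearMap f g hfg hgf, ?_, ?_⟩
  · change f w' = w
    rw [hfx, h1, one_smul]
    abel
  · intro x
    change (f x) c = x c
    rw [hfx]
    simp [hc]

/-- the modified multiplication operator is annihilated by `g` -/
lemma aeval_companion {F E : Type*} [Field F] [Field E] [Algebra F E] (β : E) (d : ℕ)
    (B : Module.Basis (Fin (d + 1)) F E) (hB : ∀ i, B i = β ^ (i : ℕ)) (g : F[X]) (hg : g.Monic)
    (hgd : g.natDegree = d + 1) :
    aeval (Algebra.lmul F E β - (B.coord (Fin.last d)).smulRight (aeval β g)) g = 0 := by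
  set u : E := aeval β g with hu
  set φ := B.coord (Fin.last d) with hφ
  set T : Module.End F E := Algebra.lmul F E β - φ.smulRight u with hT
  have hTx : ∀ x : E, T x = β * x - φ x • u := by
    intro x
    simp [hT]
  have hφ1 : ∀ j : ℕ, j < d → φ (β ^ j) = 0 := by
    intro j hj
    have h1 := hB (⟨j, by omega⟩ : Fin (d + 1))
    simp only at h1
    rw [← h1, hφ, Module.Basis.coord_apply, Module.Basis.repr_self]
    rw [Finsupp.single_apply, if_neg]
    intro h
    have := congrArg Fin.val h
    simp at this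
    omega
  have hφ2 : φ (β ^ d) = 1 := by
    have h1 := hB (Fin.last d)
    simp only [Fin.val_last] at h1
    rw [← h1, hφ, Module.Basis.coord_apply, Module.Basis.repr_self]
    simp
  have hpow : ∀ j : ℕ, j ≤ d → (T ^ j) 1 = β ^ j := by
    intro j
    induction j with
    | zero => intro _; simp
    | succ j ih =>
      intro hj
      rw [pow_succ', Module.End.mul_apply, ih (by omega), hTx, hφ1 j (by omega), zero_smul, sub_zero]
      ring
  have hpow2 : (T ^ (d + 1)) 1 = β ^ (d + 1) - u := by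
    rw [pow_succ', Module.End.mul_apply, hpow d le_rfl, hTx, hφ2, one_smul]
    ring
  have h1 : aeval T g 1 = 0 := by
    rw [Polynomial.aeval_eq_sum_range, hgd, Finset.sum_range_succ]
    have h2 : g.coeff (d + 1) = 1 := by
      have := hg.coeff_natDegree
      rwa [hgd] at this
    rw [h2, LinearMap.add_apply, LinearMap.sum_apply]
    have h3 : ∀ i ∈ Finset.range (d + 1), (g.coeff i • T ^ i) 1 = g.coeff i • β ^ i := by
      intro i hi
      rw [LinearMap.smul_apply, hpow i (by have := Finset.mem_range.mp hi; omega)]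
    rw [Finset.sum_congr rfl h3, LinearMap.smul_apply, hpow2, one_smul]
    have h4 : u = ∑ i ∈ Finset.range (d + 1), g.coeff i • β ^ i + β ^ (d + 1) := by
      rw [hu, Polynomial.aeval_eq_sum_range, hgd, Finset.sum_range_succ, h2, one_smul]
    rw [h4]
    ring
  refine B.ext fun i => ?_
  rw [hB i, ← hpow i (by omega), LinearMap.zero_apply, ← Module.End.mul_apply]
  have h5 : aeval T g * T ^ (i : ℕ) = T ^ (i : ℕ) * aeval T g := by
    have : ∀ (j : ℕ), T ^ j = aeval T (X ^ j : F[X]) := by
      intro j; simp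
    rw [this, ← map_mul, ← map_mul, mul_comm]
  rw [h5, Module.End.mul_apply, h1, map_zero]

end Pool.Agent.LarsenW
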