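import Mathlib
import Pool.Agent.LarsenW.Rank1

/-! Flexible splitting of `λ + (single column)`. -/

open Finset Polynomial

namespace Pool.Agent.LarsenW

lemma nice_minpoly {F E : Type*} [Field F] [Field E] [Algebra F E] [FiniteDimensional F E]
    [Algebra.IsSeparable F E] (k : ℕ) (β : E)
    (hβ : (minpoly F β).natDegree = Module.finrank F E) (x : E) (hx : x ^ k = β) :
    Nice k (minpoly F β) := by
  rw [← Field.primitive_element_iff_minpoly_natDegree_eq] at hβ
  have h1 : x ∈ (IntermediateField.adjoin F {β}).toSubalgebra := by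
    rw [hβ]; trivial
  rw [IntermediateField.adjoin_simple_toSubalgebra_of_isAlgebraic
    (Algebra.IsAlgebraic.isAlgebraic β), Algebra.adjoin_singleton_eq_range_aeval] at h1
  obtain ⟨h, hh⟩ := h1
  refine ⟨h, minpoly.dvd F β ?_⟩
  have hh' : aeval β h = x := hh
  rw [map_sub, map_pow, hh', aeval_X, hx, sub_self]

lemma blk_of_pair {F E κ : Type*} [Field F] [Field E] [Algebra F E] [FiniteDimensional F E]
    [Algebra.IsSeparable F E] [Fintype κ] [DecidableEq κ] [Nonempty κ] (k : ℕ) (Z : Finset F[X])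
    (hcard : Fintype.card κ = Module.finrank F E)
    (D L U : Matrix κ κ F) (hD : D = L + U) (β γ : E)
    (hβd : (minpoly F β).natDegree = Module.finrank F E)
    (hγd : (minpoly F γ).natDegree = Module.finrank F E)
    (hβk : ∃ x : E, x ^ k = β) (hγk : ∃ x : E, x ^ k = γ)
    (hβZ : minpoly F β ∉ Z) (hγZ : minpoly F γ ∉ Z)
    (hL : aeval L (minpoly F β) = 0) (hU : aeval U (minpoly F γ) = 0) : Blk k Z D := by
  have h1 : L.charpoly = minpoly F β :=
    charpoly_eq_of L _ (minpoly.irreducible (Algebra.IsIntegral.isIntegral β))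
      (minpoly.monic (Algebra.IsIntegral.isIntegral β)) (by rw [hβd, hcard]) hL
  have h2 : U.charpoly = minpoly F γ :=
    charpoly_eq_of U _ (minpoly.irreducible (Algebra.IsIntegral.isIntegral γ))
      (minpoly.monic (Algebra.IsIntegral.isIntegral γ)) (by rw [hγd, hcard]) hU
  obtain ⟨x, hx⟩ := hβk
  obtain ⟨y, hy⟩ := hγk
  refine ⟨L, U, hD, ⟨?_, ?_, ?_⟩, ⟨?_, ?_, ?_⟩⟩
  · rw [h1]; exact minpoly.irreducible (Algebra.IsIntegral.isIntegral β)
  · rw [h1]; exact nice_minpoly k β hβd x hx
  · rw [h1]; exact hβZ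
  · rw [h2]; exact minpoly.irreducible (Algebra.IsIntegral.isIntegral γ)
  · rw [h2]; exact nice_minpoly k γ hγd y hy
  · rw [h2]; exact hγZ

/-- numerical threshold hypothesis -/
def Thr (k T Q0 : ℕ) : Prop := 10 ≤ Q0 ∧ ∀ Q m : ℕ, Q0 ≤ Q → 2 ^ m ≤ Q →
    (3 * m : ℝ) * Real.sqrt Q + 2 * T * m < ((Q : ℝ) - 1) ^ 2 / (k ^ 2 * Q) - Real.sqrt Q

section scalar
variable {F E κ : Type*} [Field F] [Fintype F] [Field E] [Fintype E] [Algebra F E] [Fintype κ]
  [DecidableEq κ] [Nonempty κ]

lemma blk_scalar (k T Q0 : ℕ) (hk : 1 ≤ k) (hthr : Thr k T Q0)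
    (hcard : Fintype.card κ = Module.finrank F E) (hQ : Q0 ≤ Fintype.card E)
    (μ : F) (hμ : μ ≠ 0 ∨ (2 : F) = 0) (Z : Finset F[X]) (hZ : Z.card ≤ T) :
    Blk k Z (μ • (1 : Matrix κ κ F)) := by
  have hδ : algebraMap F E μ ≠ 0 ∨ (2 : E) = 0 := by
    rcases hμ with h | h
    · left; rwa [Ne, map_eq_zero]
    · right
      have := congrArg (algebraMap F E) h
      rwa [map_ofNat, map_zero] at this
  obtain ⟨β, γ, hsum, hβk, hγk, hβg, hγg, hβZ, hγZ, _⟩ :=
    select (F := F) k T hk Q0 hthr.2 hQ (algebraMap F E μ) 1 hδ one_ne_zero Z hZ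
  have b : Module.Basis κ F E :=
    (Module.finBasisOfFinrankEq F E rfl).reindex (Fintype.equivOfCardEq (by simp [hcard]))
  refine blk_of_pair k Z hcard _ (Algebra.leftMulMatrix b β) (Algebra.leftMulMatrix b γ) ?_ β γ
    (natDegree_minpoly_eq β hβg) (natDegree_minpoly_eq γ hγg) hβk hγk hβZ hγZ ?_ ?_
  · rw [← map_add, hsum, AlgHom.commutes, Algebra.algebraMap_eq_smul_one]
  · rw [Polynomial.aeval_algHom_apply, minpoly.aeval, map_zero]
  · rw [Polynomial.aeval_algHom_apply, minpoly.aeval, map_zero]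

end scalar

section rank1
variable {F E κ : Type*} [Field F] [Fintype F] [Field E] [Fintype E] [Algebra F E] [Fintype κ]
  [DecidableEq κ] [Nonempty κ]

/-- `δ` with prescribed trace -/
lemma exists_trace (hm : 2 ≤ Module.finrank F E) (hQ : 10 ≤ Fintype.card E) (t lam : F) :
    ∃ δ : E, Algebra.trace F E δ = t ∧ δ ≠ 0 ∧ δ ≠ algebraMap F E lam := by
  classical
  obtain ⟨δ0, hδ0⟩ := Algebra.trace_surjective F E t
  set K := LinearMap.ker (Algebra.trace F E) with hK
  have h1 : Module.finrank F K + 1 = Module.finrank F E := by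
    have h2 := LinearMap.finrank_range_add_finrank_ker (Algebra.trace F E)
    have h3 : Module.finrank F (LinearMap.range (Algebra.trace F E)) = 1 := by
      rw [LinearMap.range_eq_top.mpr (Algebra.trace_surjective F E)]
      simp
    rw [h3, ← hK] at h2
    omega
  have hcK : Fintype.card K = Fintype.card F ^ Module.finrank F K := Module.card_eq_pow_finrank
  have hcE : Fintype.card E = Fintype.card F ^ Module.finrank F E := Module.card_eq_pow_finrank
  have h4 : 3 ≤ Fintype.card K := by
    by_contra hlt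
    push Not at hlt
    have h5 : Fintype.card E ≤ Fintype.card K ^ 2 := by
      rw [hcK, hcE, ← pow_mul]
      exact Nat.pow_le_pow_right Fintype.card_pos (by omega)
    have : Fintype.card K ^ 2 ≤ 2 ^ 2 := Nat.pow_le_pow_left (by omega) 2
    omega
  by_contra hcon
  push Not at hcon
  have h6 : ∀ x : K, δ0 + (x : E) = 0 ∨ δ0 + (x : E) = algebraMap F E lam := by
    intro x
    by_cases h0 : δ0 + (x : E) = 0
    · left; exact h0
    · right
      refine hcon _ ?_ h0
      rw [map_add, hδ0]
      have := x.2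
      rw [LinearMap.mem_ker] at this
      rw [this, add_zero]
  have h7 : Fintype.card K ≤ ({0, algebraMap F E lam} : Finset E).card := by
    rw [← Finset.card_univ]
    refine Finset.card_le_card_of_injOn (fun x : K => δ0 + (x : E)) ?_ ?_
    · intro x _
      rcases h6 x with h | h
      · simp [h]
      · simp [h]
    · intro x _ y _ hxy
      simp only [add_right_inj] at hxy
      exact Subtype.ext hxy
  have h8 := (Finset.card_le_two (a := (0 : E)) (b := algebraMap F E lam))
  omega

lemma trace_eq_neg_nextCoeff (x : E) (hx : (minpoly F x).natDegree = Module.finrank F E) :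
    Algebra.trace F E x = -(minpoly F x).nextCoeff := by
  classical
  have b := Module.finBasis F E
  rw [Algebra.trace_eq_matrix_trace b, Matrix.trace_eq_neg_charpoly_nextCoeff]
  haveI : Nonempty (Fin (Module.finrank F E)) := ⟨⟨0, Module.finrank_pos⟩⟩
  rw [charpoly_eq_of (Algebra.leftMulMatrix b x) (minpoly F x)
    (minpoly.irreducible (Algebra.IsIntegral.isIntegral x))
      (minpoly.monic (Algebra.IsIntegral.isIntegral x)) (by rw [hx]; simp)
      (by rw [Polynomial.aeval_algHom_apply, minpoly.aeval, map_zero])]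

/-- the rank one case -/
lemma blk_rank1 (k T Q0 : ℕ) (hk : 1 ≤ k) (hthr : Thr k T Q0)
    (hcard : Fintype.card κ = Module.finrank F E) (hQ : Q0 ≤ Fintype.card E)
    (hm : 2 ≤ Module.finrank F E) (lam : F) (c : κ) (w : κ → F) (hw : w ≠ 0)
    (Z : Finset F[X]) (hZ : Z.card ≤ T) :
    Blk k Z (lam • (1 : Matrix κ κ F) + Matrix.vecMulVec w (Pi.single c 1)) := by
  classical
  obtain ⟨δ, hδt, hδ0, hδl⟩ := exists_trace (F := F) (E := E) hm (hthr.1.trans hQ)
    (Module.finrank F E * lam + w c) lam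
  set ε : E := algebraMap F E lam - δ with hε
  have hε0 : ε ≠ 0 := by
    rw [hε, sub_ne_zero]; exact hδl.symm
  obtain ⟨β, γ, hsum, hβk, hγk, hβg, hγg, hβZ, hγZ, hne⟩ :=
    select (F := F) k T hk Q0 hthr.2 hQ δ ε (Or.inl hδ0) hε0 Z hZ
  set β' : E := β + ε with hβ'
  have hβ'γ : β' = algebraMap F E lam - γ := by
    rw [hβ', hε, ← hsum]; ring
  have hβ'g : ∀ σ : E ≃ₐ[F] E, σ ≠ 1 → σ β' ≠ β' := by
    intro σ hσ h
    apply hγg σ hσ
    rw [hβ'γ, map_sub, AlgEquiv.commutes] at h
    linear_combination -h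
  have hβd := natDegree_minpoly_eq β hβg
  have hγd := natDegree_minpoly_eq γ hγg
  have hβ'd := natDegree_minpoly_eq β' hβ'g
  set f := minpoly F β with hf
  set g := minpoly F β' with hg
  have hfm : f.Monic := minpoly.monic (Algebra.IsIntegral.isIntegral β)
  have hgm : g.Monic := minpoly.monic (Algebra.IsIntegral.isIntegral β')
  obtain ⟨d, hd⟩ : ∃ d, Module.finrank F E = d + 1 := ⟨Module.finrank F E - 1, by omega⟩
  -- power basis
  have hli : LinearIndependent F (fun i : Fin (d + 1) => β ^ (i : ℕ)) := by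
    have h1 := linearIndependent_pow (K := F) β
    rw [← hf, hβd, hd] at h1
    exact h1
  set B : Module.Basis (Fin (d + 1)) F E :=
    basisOfLinearIndependentOfCardEqFinrank hli (by rw [Fintype.card_fin, hd]) with hBdef
  have hB : ∀ i, B i = β ^ (i : ℕ) := by
    intro i
    rw [hBdef]
    simp
  -- the functional and the vector
  set φ := B.coord (Fin.last d) with hφ
  set u : E := aeval β g with hu
  have hcomp := aeval_companion β d B hB g hgm (by rw [hβ'd, hd])
  rw [← hφ, ← hu] at hcomp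
  -- coordinates of `u`
  have hu2 : u = ∑ i : Fin (d + 1), (g - f).coeff i • B i := by
    have h1 : u = aeval β (g - f) := by
      rw [map_sub, hf, minpoly.aeval, sub_zero]
    have h2 : (g - f).natDegree < d + 1 := by
      have h3 : (g - f).degree < g.degree := Polynomial.degree_sub_lt_left
        (by rw [Polynomial.degree_eq_natDegree hgm.ne_zero, Polynomial.degree_eq_natDegree hfm.ne_zero,
          hβd, hβ'd]) hgm.ne_zero (by rw [hgm.leadingCoeff, hfm.leadingCoeff])
      have h4 : g - f ≠ 0 := by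
        rw [sub_ne_zero]; exact hne
      have h5 := (Polynomial.natDegree_lt_natDegree_iff h4).mpr h3
      rw [hβ'd, hd] at h5
      exact h5
    rw [h1, Polynomial.aeval_eq_sum_range' h2, ← Fin.sum_univ_eq_sum_range
      (fun i => (g - f).coeff i • β ^ i)]
    refine Finset.sum_congr rfl fun i _ => ?_
    rw [hB]
  have hcoord : ∀ i : Fin (d + 1), B.coord i u = (g - f).coeff i := by
    intro i
    rw [hu2, map_sum]
    simp [Module.Basis.coord_apply, Finsupp.single_apply]
  have hφu : φ u = w c := by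
    rw [hφ, hcoord]
    have h1 : Algebra.trace F E β = -f.coeff d := by
      rw [trace_eq_neg_nextCoeff β hβd, Polynomial.nextCoeff, if_neg (by rw [← hf, hβd]; omega),
        ← hf, hβd, hd]
      simp
    have h2 : Algebra.trace F E β' = -g.coeff d := by
      rw [trace_eq_neg_nextCoeff β' hβ'd, Polynomial.nextCoeff, if_neg (by rw [← hg, hβ'd]; omega),
        ← hg, hβ'd, hd]
      simp
    rw [hβ', hε, map_add, map_sub, hδt, Algebra.trace_algebraMap] at h2
    rw [Polynomial.coeff_sub, Fin.val_last]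
    rw [nsmul_eq_mul] at h2
    linear_combination h2 - h1
  have hune : u ≠ 0 := by
    intro h0
    apply hne
    have h1 : f ∣ g := minpoly.dvd F β h0
    exact (Polynomial.eq_of_monic_of_dvd_of_natDegree_le hfm hgm h1 (by rw [hβd, hβ'd]))
  -- reindex
  have hcard2 : Fintype.card (Fin (d + 1)) = Fintype.card κ := by
    rw [Fintype.card_fin, hcard, hd]
  set e0 : Fin (d + 1) ≃ κ := Fintype.equivOfCardEq hcard2 with he0
  set e : Fin (d + 1) ≃ κ := e0.trans (Equiv.swap (e0 (Fin.last d)) c) with he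
  have hec : e (Fin.last d) = c := by
    rw [he]; simp
  set Bκ := B.reindex e with hBκ
  set w' : κ → F := Bκ.equivFun u with hw'
  have hw'ne : w' ≠ 0 := by
    rw [hw', Ne, LinearEquiv.map_eq_zero_iff]; exact hune
  have hBκc : ∀ x : E, Bκ.equivFun x c = φ x := by
    intro x
    rw [Module.Basis.equivFun_apply, hBκ, Module.Basis.repr_reindex_apply, hφ,
      Module.Basis.coord_apply]
    congr 1
    rw [← hec, Equiv.symm_apply_apply]
  have hw'c : w' c = w c := by
    rw [hw', hBκc, hφu]
  obtain ⟨P, hP1, hP2⟩ := exists_transvection c w w' hw hw'ne hw'c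
  set Φ : E ≃ₗ[F] (κ → F) := Bκ.equivFun.trans P with hΦ
  have hΦu : Φ u = w := by
    rw [hΦ, LinearEquiv.trans_apply, ← hw', hP1]
  have hΦc : ∀ x : E, (Φ x) c = φ x := by
    intro x
    rw [hΦ, LinearEquiv.trans_apply, hP2, hBκc]
  set Ψ : Module.End F E ≃ₐ[F] Matrix κ κ F := (Φ.conjAlgEquiv F).trans LinearMap.toMatrixAlgEquiv'
    with hΨ
  have hΨr : Ψ (φ.smulRight u) = Matrix.vecMulVec w (Pi.single c 1) := by
    ext i j
    rw [hΨ, AlgEquiv.trans_apply, LinearMap.toMatrixAlgEquiv'_apply, LinearEquiv.conjAlgEquiv_apply]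
    simp only [LinearMap.comp_apply, LinearMap.smulRight_apply, LinearEquiv.coe_coe, map_smul,
      Pi.smul_apply, hΦu, smul_eq_mul, Matrix.vecMulVec_apply]
    rw [← hΦc, LinearEquiv.apply_symm_apply, Pi.single_apply]
    by_cases hjc : c = j
    · subst hjc
      simp
    · rw [if_neg hjc, Pi.single_eq_of_ne (Ne.symm hjc)]
      ring
  set Lm : Matrix κ κ F := Ψ (Algebra.lmul F E β) with hLm
  have hL0 : aeval Lm f = 0 := by
    rw [hLm, Polynomial.aeval_algHom_apply Ψ, Polynomial.aeval_algHom_apply, hf, minpoly.aeval,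
      map_zero, map_zero]
  have hL1 : aeval (Lm - Matrix.vecMulVec w (Pi.single c 1)) g = 0 := by
    rw [hLm, ← hΨr, ← map_sub, Polynomial.aeval_algHom_apply Ψ, hcomp, map_zero]
  have hU0 : aeval (lam • (1 : Matrix κ κ F) + Matrix.vecMulVec w (Pi.single c 1) - Lm)
      (minpoly F γ) = 0 := by
    have h1 : lam • (1 : Matrix κ κ F) + Matrix.vecMulVec w (Pi.single c 1) - Lm
        = aeval (Lm - Matrix.vecMulVec w (Pi.single c 1)) (C lam - X : F[X]) := by
      rw [map_sub, aeval_X, aeval_C, Algebra.algebraMap_eq_smul_one]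
      abel
    rw [h1, ← Polynomial.aeval_comp]
    have h2 : g ∣ (minpoly F γ).comp (C lam - X) := by
      refine minpoly.dvd F β' ?_
      rw [Polynomial.aeval_comp, map_sub, aeval_C, aeval_X, hβ'γ]
      have : algebraMap F E lam - (algebraMap F E lam - γ) = γ := by ring
      rw [this, minpoly.aeval]
    obtain ⟨r, hr⟩ := h2
    rw [hr, map_mul, hL1, zero_mul]
  exact blk_of_pair k Z hcard _ Lm _ (by abel) β γ hβd hγd hβk hγk hβZ hγZ hL0 hU0

end rank1

section final
variable {F κ : Type*} [Field F] [Fintype F] [Fintype κ] [DecidableEq κ]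

lemma exists_extension (m : ℕ) (hm : m ≠ 0) : ∃ (E : Type) (_ : Field E) (_ : Fintype E)
    (_ : Algebra F E), Module.finrank F E = m ∧ Fintype.card E = Fintype.card F ^ m := by
  classical
  haveI : NeZero m := ⟨hm⟩
  haveI : Fact (ringChar F).Prime := ⟨CharP.char_is_prime F _⟩
  letI : Fintype (FiniteField.Extension F (ringChar F) m) := Fintype.ofFinite _
  refine ⟨FiniteField.Extension F (ringChar F) m, inferInstance, inferInstance,
    inferInstance, FiniteField.finrank_extension F (ringChar F) m, ?_⟩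
  have h := FiniteField.natCard_extension F (ringChar F) m
  rwa [Nat.card_eq_fintype_card, Nat.card_eq_fintype_card] at h

lemma flex_scalar (k T Q0 : ℕ) (hk : 1 ≤ k) (hthr : Thr k T Q0)
    (hQ : Q0 ≤ Fintype.card F ^ Fintype.card κ) (μ : F) (hμ : μ ≠ 0 ∨ (2 : F) = 0) :
    Flex k T (μ • (1 : Matrix κ κ F)) := by
  intro Z hZ
  have hκ : Fintype.card κ ≠ 0 := by
    intro h0
    rw [h0, pow_zero] at hQ
    have := hthr.1
    omega
  haveI : Nonempty κ := Fintype.card_pos_iff.mp (Nat.pos_of_ne_zero hκ)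
  obtain ⟨E, _, _, _, h1, h2⟩ := exists_extension (F := F) (Fintype.card κ) hκ
  exact blk_scalar (E := E) k T Q0 hk hthr h1.symm (h2 ▸ hQ) μ hμ Z hZ

theorem flex_block (k T Q0 : ℕ) (hk : 1 ≤ k) (hthr : Thr k T Q0)
    (hQ : Q0 ≤ Fintype.card F ^ Fintype.card κ) (lam : F) (c : κ) (w : κ → F)
    (hne : lam • (1 : Matrix κ κ F) + Matrix.vecMulVec w (Pi.single c 1) ≠ 0 ∨ (2 : F) = 0) :
    Flex k T (lam • (1 : Matrix κ κ F) + Matrix.vecMulVec w (Pi.single c 1)) := by
  haveI : Nonempty κ := ⟨c⟩
  by_cases hw : w = 0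
  · subst hw
    rw [Matrix.zero_vecMulVec, add_zero] at hne ⊢
    refine flex_scalar k T Q0 hk hthr hQ lam ?_
    rcases hne with h | h
    · left
      rintro rfl
      simp at h
    · right; exact h
  · by_cases hm : 2 ≤ Fintype.card κ
    · intro Z hZ
      obtain ⟨E, _, _, _, h1, h2⟩ := exists_extension (F := F) (Fintype.card κ) (by omega)
      exact blk_rank1 (E := E) k T Q0 hk hthr h1.symm (h2 ▸ hQ) (h1 ▸ hm) lam c w hw Z hZ
    · have hsub : Subsingleton κ := by
        rw [← Fintype.card_le_one_iff_subsingleton]; omega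
      have h3 : lam • (1 : Matrix κ κ F) + Matrix.vecMulVec w (Pi.single c 1)
          = (lam + w c) • (1 : Matrix κ κ F) := by
        ext i j
        have hi : i = c := Subsingleton.elim _ _
        have hj : j = c := Subsingleton.elim _ _
        subst hi hj
        simp [Matrix.vecMulVec_apply]
      rw [h3] at hne ⊢
      refine flex_scalar k T Q0 hk hthr hQ _ ?_
      rcases hne with h | h
      · left
        intro h0
        rw [h0, zero_smul] at h
        exact h rfl
      · right; exact h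

end final

end Pool.Agent.LarsenW
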