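import Mathlib
import Pool.Agent.LarsenW.Flex

/-! Colouring criterion for a matrix to be a sum of two `k`-th powers. -/

open Finset Polynomial

namespace Pool.Agent.LarsenW

/-- `A` is a sum of two `k`-th powers -/
def Good {F ι : Type*} [Field F] [Fintype ι] [DecidableEq ι] (k : ℕ) (A : Matrix ι ι F) : Prop :=
  ∃ X Y : Matrix ι ι F, A = X ^ k + Y ^ k

lemma Flex.mono {F κ : Type*} [Field F] [Fintype κ] [DecidableEq κ] {k T T' : ℕ}
    {D : Matrix κ κ F} (h : Flex k T D) (hT : T' ≤ T) : Flex k T' D :=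
  fun Z hZ => h Z (hZ.trans hT)

lemma Good.of_algEquiv {F ι κ : Type*} [Field F] [Fintype ι] [DecidableEq ι] [Fintype κ]
    [DecidableEq κ] {k : ℕ} {A : Matrix ι ι F} (Ψ : Matrix ι ι F ≃ₐ[F] Matrix κ κ F)
    (h : Good k (Ψ A)) : Good k A := by
  obtain ⟨X, Y, hXY⟩ := h
  refine ⟨Ψ.symm X, Ψ.symm Y, ?_⟩
  rw [← map_pow, ← map_pow, ← map_add, ← hXY, AlgEquiv.symm_apply_apply]

theorem good_of_coloring {F ι β : Type*} [Field F] [Fintype F] [Fintype ι] [DecidableEq ι]
    [Fintype β] [DecidableEq β] (k T Q0 m : ℕ) (hk : 1 ≤ k) (hthr : Thr k T Q0)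
    (hQ : Q0 ≤ Fintype.card F ^ m) (M : Matrix ι ι F) (c : ι → β)
    (hT : 2 * (Finset.univ.image c).card ≤ T)
    (hcard : ∀ x, m ≤ (Finset.univ.filter (fun y => c y = c x)).card)
    (hcol : ∀ x, ∃ lam : F, ∃ a, c a = c x ∧
      (∀ y z, c y = c x → c z = c x → z ≠ a → M y z = if y = z then lam else 0) ∧
      ((∃ y, c y = c x ∧ M y y ≠ 0) ∨ (2 : F) = 0)) : Good k M := by
  classical
  set e := Fintype.equivFin β with he
  refine sum_of_powers_of_blocks k M (fun x => e (c x)) ?_
  intro b hb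
  rw [Finset.mem_image] at hb
  obtain ⟨x, _, hx⟩ := hb
  have hTT : 2 * (Finset.univ.image (fun x => e (c x))).card ≤ T := by
    have h1 : Finset.univ.image (fun x => e (c x)) = (Finset.univ.image c).image e := by
      rw [Finset.image_image]; rfl
    rw [h1]
    have := Finset.card_image_le (s := Finset.univ.image c) (f := e)
    omega
  refine Flex.mono ?_ hTT
  obtain ⟨lam, a, hac, hM, hnz⟩ := hcol x
  subst hx
  set κ := {y // e (c y) = e (c x)} with hκ
  have hmem : ∀ y : κ, c y.1 = c x := fun y => e.injective y.2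
  set a' : κ := ⟨a, by rw [hac]⟩ with ha'
  set w : κ → F := fun y => M y.1 a - (if y = a' then lam else 0) with hw
  have hD : M.toSquareBlock (fun x => e (c x)) (e (c x))
      = lam • (1 : Matrix κ κ F) + Matrix.vecMulVec w (Pi.single a' 1) := by
    ext y z
    rw [Matrix.toSquareBlock_def, Matrix.of_apply, Matrix.add_apply, Matrix.smul_apply,
      Matrix.vecMulVec_apply, Matrix.one_apply, smul_eq_mul]
    by_cases hz : z = a'
    · subst hz
      rw [Pi.single_eq_same]
      have hwy : w y = M y.1 a - (if y = a' then lam else 0) := rfl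
      rw [hwy]
      have haa : (a' : κ).1 = a := rfl
      rw [haa]
      by_cases hy : y = a'
      · simp only [if_pos hy]; ring
      · simp only [if_neg hy]; ring
    · rw [Pi.single_eq_of_ne hz]
      have hza : z.1 ≠ a := by
        intro h; exact hz (Subtype.ext h)
      rw [hM y.1 z.1 (hmem y) (hmem z) hza]
      by_cases hyz : y = z
      · rw [if_pos hyz, if_pos (congrArg Subtype.val hyz)]; ring
      · rw [if_neg hyz, if_neg (fun h => hyz (Subtype.ext h))]; ring
  rw [hD]
  refine flex_block k T Q0 hk hthr ?_ lam a' w ?_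
  · refine hQ.trans (Nat.pow_le_pow_right Fintype.card_pos ?_)
    have h1 : Fintype.card κ = (Finset.univ.filter (fun y => c y = c x)).card := by
      rw [Fintype.card_subtype]
      congr 1
      ext y
      simp
    rw [h1]
    exact hcard x
  · rcases hnz with ⟨y, hy, hne⟩ | h
    · left
      rw [← hD]
      intro h0
      apply hne
      have := congrFun (congrFun h0 ⟨y, by rw [hy]⟩) ⟨y, by rw [hy]⟩
      rw [Matrix.toSquareBlock_def, Matrix.of_apply] at this
      exact this
    · right; exact h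

/-- direct sum with zero -/
lemma Good.fromBlocks_zero {F ι κ : Type*} [Field F] [Fintype ι] [DecidableEq ι] [Fintype κ]
    [DecidableEq κ] {k : ℕ} (hk : 1 ≤ k) {A : Matrix ι ι F} (h : Good k A) :
    Good k (Matrix.fromBlocks A 0 0 (0 : Matrix κ κ F)) := by
  obtain ⟨X, Y, hXY⟩ := h
  have hpow : ∀ (Z : Matrix ι ι F) (j : ℕ), (Matrix.fromBlocks Z 0 0 (0 : Matrix κ κ F)) ^ (j + 1)
      = Matrix.fromBlocks (Z ^ (j + 1)) 0 0 0 := by
    intro Z j
    induction j with
    | zero => simp
    | succ j ih =>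
      rw [pow_succ, ih, Matrix.fromBlocks_multiply]
      simp [pow_succ]
  obtain ⟨j, rfl⟩ : ∃ j, k = j + 1 := ⟨k - 1, by omega⟩
  refine ⟨Matrix.fromBlocks X 0 0 0, Matrix.fromBlocks Y 0 0 0, ?_⟩
  rw [hpow, hpow, Matrix.fromBlocks_add, ← hXY]
  simp

lemma good_zero {F ι : Type*} [Field F] [Fintype ι] [DecidableEq ι] {k : ℕ} (hk : 1 ≤ k) :
    Good k (0 : Matrix ι ι F) := by
  refine ⟨0, 0, ?_⟩
  rw [zero_pow (by omega), add_zero]

lemma good_blockDiagonal' {F I : Type*} {n' : I → Type*} [Field F] [Fintype I] [DecidableEq I]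
    [∀ i, Fintype (n' i)] [∀ i, DecidableEq (n' i)] {k : ℕ} (C : ∀ i, Matrix (n' i) (n' i) F)
    (h : ∀ i, Good k (C i)) : Good k (Matrix.blockDiagonal' C) := by
  choose X Y hXY using h
  refine ⟨Matrix.blockDiagonal' X, Matrix.blockDiagonal' Y, ?_⟩
  rw [← Matrix.blockDiagonal'_pow, ← Matrix.blockDiagonal'_pow, ← Matrix.blockDiagonal'_add]
  congr 1
  funext i
  exact hXY i

end Pool.Agent.LarsenW
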