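import Mathlib

/-! A convenient basis for a cyclic module `F[X]/(f)`, and the decomposition of a matrix into
such cyclic blocks. -/

open Finset Polynomial

namespace Pool.Agent.LarsenW

variable {F : Type*} [Field F]

/-- `r j = ∏_{a<j} (X - λ a)` -/
noncomputable def rpoly (l : ℕ → F) (j : ℕ) : F[X] := ∏ a ∈ Finset.range j, (X - C (l a))

lemma rpoly_monic (l : ℕ → F) (j : ℕ) : (rpoly l j).Monic :=
  monic_prod_of_monic _ _ (fun _ _ => monic_X_sub_C _)

lemma rpoly_natDegree (l : ℕ → F) (j : ℕ) : (rpoly l j).natDegree = j := by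
  unfold rpoly
  rw [natDegree_prod_of_monic _ _ (fun _ _ => monic_X_sub_C _)]
  simp

lemma rpoly_succ (l : ℕ → F) (j : ℕ) : rpoly l (j + 1) = rpoly l j * (X - C (l j)) := by
  unfold rpoly
  rw [Finset.prod_range_succ]

lemma exists_basis (f : F[X]) (hf : f ≠ 0) (d : ℕ) (hd : f.natDegree = d) (l : ℕ → F) :
    ∃ b : Module.Basis (Fin d) F (AdjoinRoot f), ∀ j, b j = AdjoinRoot.mk f (rpoly l j) := by
  subst hd
  set e := AdjoinRoot.powerBasisAux hf with he
  have hpow : ∀ i, e i = AdjoinRoot.root f ^ (i : ℕ) := by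
    intro i
    rw [he]
    exact (AdjoinRoot.powerBasis hf).basis_eq_pow i
  set v : Fin f.natDegree → AdjoinRoot f := fun j => AdjoinRoot.mk f (rpoly l j) with hv
  have hmat : e.toMatrix v = Matrix.of (fun (i j : Fin f.natDegree) => (rpoly l j).coeff i) := by
    ext i j
    rw [Module.Basis.toMatrix_apply, Matrix.of_apply]
    have h1 : v j = ∑ i : Fin f.natDegree, (rpoly l j).coeff i • e i := by
      have h2 : (rpoly l (j : ℕ)).natDegree < f.natDegree := by
        rw [rpoly_natDegree]; exact j.2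
      rw [hv]
      simp only
      rw [← AdjoinRoot.aeval_eq, Polynomial.aeval_eq_sum_range' h2, ← Fin.sum_univ_eq_sum_range
        (fun i => (rpoly l (j : ℕ)).coeff i • AdjoinRoot.root f ^ i)]
      refine Finset.sum_congr rfl fun i _ => ?_
      rw [hpow]
    rw [h1, map_sum, Finsupp.finsetSum_apply]
    simp [Finsupp.single_apply]
  have hdet : IsUnit (e.det v) := by
    rw [Module.Basis.det_apply, hmat, Matrix.det_matrixOfPolynomials _
      (fun i => rpoly_natDegree l i) (fun i => rpoly_monic l i)]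
    exact isUnit_one
  obtain ⟨hli, hsp⟩ := (Module.Basis.is_basis_iff_det e).mpr hdet
  refine ⟨Module.Basis.mk hli hsp.ge, fun j => ?_⟩
  rw [Module.Basis.mk_apply]

/-- matrix of multiplication by the root -/
noncomputable def mulMat {f : F[X]} {d : ℕ} (b : Module.Basis (Fin d) F (AdjoinRoot f)) :
    Matrix (Fin d) (Fin d) F :=
  LinearMap.toMatrix b b (Algebra.lmul F (AdjoinRoot f) (AdjoinRoot.root f))

lemma mulMat_apply {f : F[X]} {d : ℕ} (b : Module.Basis (Fin d) F (AdjoinRoot f)) (i j : Fin d) :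
    mulMat b i j = b.repr (AdjoinRoot.root f * b j) i := by
  simp [mulMat, LinearMap.toMatrix_apply]

lemma mulMat_col {f : F[X]} {d : ℕ} (l : ℕ → F) (b : Module.Basis (Fin d) F (AdjoinRoot f))
    (hb : ∀ j, b j = AdjoinRoot.mk f (rpoly l j)) (i j : Fin d) (hj : (j : ℕ) + 1 < d) :
    mulMat b i j = (if i = j then l j else 0) + (if (i : ℕ) = j + 1 then 1 else 0) := by
  rw [mulMat_apply]
  set j' : Fin d := ⟨j + 1, hj⟩ with hj'
  have h1 : AdjoinRoot.root f * b j = b j' + l j • b j := by
    rw [hb, hb]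
    have : ((j' : Fin d) : ℕ) = (j : ℕ) + 1 := rfl
    rw [this, rpoly_succ, map_mul, map_sub, AdjoinRoot.mk_X, AdjoinRoot.mk_C, Algebra.smul_def,
      AdjoinRoot.algebraMap_eq]
    ring
  rw [h1, map_add, map_smul, Finsupp.add_apply, Finsupp.smul_apply, Module.Basis.repr_self,
    Module.Basis.repr_self, Finsupp.single_apply, Finsupp.single_apply]
  have h2 : (j' = i) ↔ ((i : ℕ) = j + 1) := by
    rw [Fin.ext_iff]
    exact eq_comm
  have h3 : (j = i) ↔ (i = j) := eq_comm
  simp only [h2, h3, smul_eq_mul]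
  by_cases hi : i = j
  · simp [hi]
  · simp [hi]

lemma mulMat_diag {f : F[X]} {d : ℕ} (l : ℕ → F) (b : Module.Basis (Fin d) F (AdjoinRoot f))
    (hb : ∀ j, b j = AdjoinRoot.mk f (rpoly l j)) (j : Fin d) (hj : (j : ℕ) + 1 < d) :
    mulMat b j j = l j := by
  rw [mulMat_col l b hb j j hj]
  simp

/-- the convenient basis -/
theorem cyclic_form (f : F[X]) (hf : f ≠ 0) (d : ℕ) (hd : f.natDegree = d) :
    ∃ b : Module.Basis (Fin d) F (AdjoinRoot f),
      (∀ i j : Fin d, (j : ℕ) + 1 < d → i ≠ j → (i : ℕ) ≠ j + 1 → mulMat b i j = 0) ∧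
      (∀ j : Fin d, (j : ℕ) + 2 < d → mulMat b j j = 1) ∧
      ((2 : F) ≠ 0 → (∀ j, mulMat b j j ≠ 0) ∨ mulMat b = 0) := by
  have hgen : ∀ (l : ℕ → F) (b : Module.Basis (Fin d) F (AdjoinRoot f)),
      (∀ j, b j = AdjoinRoot.mk f (rpoly l j)) → (∀ j, j + 2 < d → l j = 1) →
      (∀ i j : Fin d, (j : ℕ) + 1 < d → i ≠ j → (i : ℕ) ≠ j + 1 → mulMat b i j = 0) ∧
      (∀ j : Fin d, (j : ℕ) + 2 < d → mulMat b j j = 1) := by
    intro l b hb hl
    refine ⟨?_, ?_⟩
    · intro i j hj h1 h2
      rw [mulMat_col l b hb i j hj, if_neg h1, if_neg h2, add_zero]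
    · intro j hj
      rw [mulMat_diag l b hb j (by omega)]
      exact hl j hj
  by_cases hd2 : d < 2
  · obtain ⟨b, hb⟩ := exists_basis f hf d hd (fun _ => 1)
    obtain ⟨h1, h2⟩ := hgen _ b hb (fun _ _ => rfl)
    refine ⟨b, h1, h2, fun _ => ?_⟩
    by_cases h3 : mulMat b = 0
    · right; exact h3
    · left
      intro j hj
      apply h3
      ext i j'
      have hi : i = j := Fin.ext (by omega)
      have hj' : j' = j := Fin.ext (by omega)
      rw [hi, hj', hj]
      rfl
  · push Not at hd2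
    obtain ⟨d', rfl⟩ : ∃ d', d = d' + 2 := ⟨d - 2, by omega⟩
    set t := LinearMap.trace F _ (Algebra.lmul F (AdjoinRoot f) (AdjoinRoot.root f)) with ht
    have htr : ∀ (μ : F) (b : Module.Basis (Fin (d' + 2)) F (AdjoinRoot f)),
        (∀ j, b j = AdjoinRoot.mk f (rpoly (fun a => if a = d' then μ else 1) j)) →
        mulMat b (Fin.last (d' + 1)) (Fin.last (d' + 1)) = t - d' - μ ∧
        (∀ j : Fin (d' + 2), j ≠ Fin.last (d' + 1) → mulMat b j j = 1 ∨ mulMat b j j = μ) := by
      intro μ b hb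
      refine ⟨?_, ?_⟩
      · have h1 : t = Matrix.trace (mulMat b) := LinearMap.trace_eq_matrix_trace F b _
        rw [h1, Matrix.trace, Fin.sum_univ_castSucc, Fin.sum_univ_castSucc]
        simp only [Matrix.diag_apply]
        have h2 : ∀ x : Fin d', mulMat b x.castSucc.castSucc x.castSucc.castSucc = 1 := by
          intro x
          rw [mulMat_diag _ b hb _ (by simp)]
          simp only [Fin.val_castSucc]
          rw [if_neg (by omega)]
        have h3 : mulMat b (Fin.last d').castSucc (Fin.last d').castSucc = μ := by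
          rw [mulMat_diag _ b hb _ (by simp)]
          simp
        rw [Finset.sum_congr rfl (fun x _ => h2 x), h3]
        simp only [Finset.sum_const, Finset.card_univ, Fintype.card_fin, nsmul_eq_mul, mul_one]
        ring
      · intro j hj
        have hj' : (j : ℕ) + 1 < d' + 2 := by
          have := Fin.lt_last_iff_ne_last.mpr hj
          rw [Fin.lt_def, Fin.val_last] at this
          omega
        rw [mulMat_diag _ b hb _ hj']
        by_cases h : (j : ℕ) = d'
        · right; simp [h]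
        · left; simp [h]
    by_cases hc : t - d' - 1 ≠ 0 ∨ (2 : F) = 0
    · obtain ⟨b, hb⟩ := exists_basis f hf _ hd (fun a => if a = d' then 1 else 1)
      obtain ⟨h1, h2⟩ := hgen _ b hb (fun j _ => by simp)
      refine ⟨b, h1, h2, fun h20 => ?_⟩
      have hc' := hc.resolve_right h20
      left
      obtain ⟨h3, h4⟩ := htr 1 b hb
      intro j
      by_cases hj : j = Fin.last (d' + 1)
      · rw [hj, h3]; exact hc'
      · rcases h4 j hj with h | h <;> rw [h] <;> exact one_ne_zero
    · push Not at hc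
      obtain ⟨hc1, hc2⟩ := hc
      obtain ⟨b, hb⟩ := exists_basis f hf _ hd (fun a => if a = d' then 2 else 1)
      obtain ⟨h1, h2⟩ := hgen _ b hb (fun j hj => by
        rw [if_neg (by omega)])
      refine ⟨b, h1, h2, fun h20 => ?_⟩
      left
      obtain ⟨h3, h4⟩ := htr 2 b hb
      intro j
      by_cases hj : j = Fin.last (d' + 1)
      · rw [hj, h3]
        have : t - d' - 2 = -1 := by linear_combination hc1
        rw [this]
        exact neg_ne_zero.mpr one_ne_zero
      · rcases h4 j hj with h | h <;> rw [h]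
        · exact one_ne_zero
        · exact hc2

end Pool.Agent.LarsenW
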