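import Mathlib
import Pool.Agent.LarsenW.Cyclic

/-! Decomposition of a matrix into convenient cyclic blocks. -/

open Finset Polynomial

namespace Pool.Agent.LarsenW

/-- the properties of the convenient cyclic blocks -/
def CycProps {F : Type*} [Field F] {d : ℕ} (C : Matrix (Fin d) (Fin d) F) : Prop :=
  (∀ i j : Fin d, (j : ℕ) + 1 < d → i ≠ j → (i : ℕ) ≠ j + 1 → C i j = 0) ∧
  (∀ j : Fin d, (j : ℕ) + 2 < d → C j j = 1) ∧
  ((2 : F) ≠ 0 → (∀ j, C j j ≠ 0) ∨ C = 0)

/-- the identity map -/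
noncomputable def quotEquiv {F : Type*} [Field F] (f : F[X]) :
    (F[X] ⧸ (Submodule.span F[X] {f} : Submodule F[X] F[X])) ≃ₗ[F] AdjoinRoot f where
  toFun := fun x => x
  invFun := fun x => x
  map_add' := fun _ _ => rfl
  map_smul' := by
    intro c x
    induction x using Submodule.Quotient.induction_on with
    | H x => rfl
  left_inv := fun _ => rfl
  right_inv := fun _ => rfl

lemma quotEquiv_X_smul {F : Type*} [Field F] (f : F[X])
    (x : F[X] ⧸ (Submodule.span F[X] {f} : Submodule F[X] F[X])) :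
    quotEquiv f ((X : F[X]) • x) = AdjoinRoot.root f * quotEquiv f x := by
  induction x using Submodule.Quotient.induction_on with
  | H x => rfl

theorem decomposition {F : Type} [Field F] (n : ℕ) (A : Matrix (Fin n) (Fin n) F) :
    ∃ (I : Type) (_ : Fintype I) (_ : DecidableEq I) (d : I → ℕ)
      (C : ∀ i, Matrix (Fin (d i)) (Fin (d i)) F)
      (Ψ : Matrix (Fin n) (Fin n) F ≃ₐ[F] Matrix (Σ i, Fin (d i)) (Σ i, Fin (d i)) F),
      Ψ A = Matrix.blockDiagonal' C ∧ (∀ i, CycProps (C i)) ∧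
      Fintype.card (Σ i, Fin (d i)) = n := by
  classical
  set φ := Matrix.toLin' A with hφ
  have hT : Module.IsTorsion F[X] (Module.AEval' φ) := Module.AEval.isTorsion_of_finiteDimensional _ _ _
  obtain ⟨I, hI, p, hp, e, ⟨N⟩⟩ := Module.equiv_directSum_of_isTorsion hT
  set f : I → F[X] := fun i => p i ^ e i with hf
  have hf0 : ∀ i, f i ≠ 0 := fun i => pow_ne_zero _ (hp i).ne_zero
  have N' : Module.AEval' φ ≃ₗ[F[X]] (∀ i, F[X] ⧸ (Submodule.span F[X] {f i} : Submodule F[X] F[X])) :=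
    N.trans (DirectSum.linearEquivFunOnFintype F[X] I _)
  choose b hb using fun i => cyclic_form (f i) (hf0 i) _ rfl
  set E : (Fin n → F) ≃ₗ[F] (∀ i, AdjoinRoot (f i)) :=
    ((Module.AEval'.of φ).trans (N'.restrictScalars F)).trans
      (LinearEquiv.piCongrRight (fun i => quotEquiv (f i))) with hE
  have hEφ : ∀ v, E (φ v) = fun i => AdjoinRoot.root (f i) * E v i := by
    intro v
    rw [hE]
    simp only [LinearEquiv.trans_apply, LinearEquiv.restrictScalars_apply]
    rw [← Module.AEval'.X_smul_of, map_smul]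
    funext i
    rw [LinearEquiv.piCongrRight_apply, LinearEquiv.piCongrRight_apply, Pi.smul_apply,
      quotEquiv_X_smul]
  set B : Module.Basis (Σ i, Fin ((f i).natDegree)) F (∀ i, AdjoinRoot (f i)) := Pi.basis b with hB
  set Ψ : Matrix (Fin n) (Fin n) F ≃ₐ[F]
    Matrix (Σ i, Fin ((f i).natDegree)) (Σ i, Fin ((f i).natDegree)) F :=
    (LinearMap.toMatrixAlgEquiv'.symm.trans (E.conjAlgEquiv F)).trans (LinearMap.toMatrixAlgEquiv B)
    with hΨ
  refine ⟨I, hI, inferInstance, fun i => (f i).natDegree, fun i => mulMat (b i), Ψ, ?_,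
    fun i => hb i, ?_⟩
  · have h1 : (LinearMap.toMatrixAlgEquiv'.symm A : (Fin n → F) →ₗ[F] (Fin n → F)) = φ := rfl
    ext ⟨i', j'⟩ ⟨i, j⟩
    rw [hΨ, AlgEquiv.trans_apply, AlgEquiv.trans_apply, h1, LinearMap.toMatrixAlgEquiv_apply,
      LinearEquiv.conjAlgEquiv_apply]
    simp only [LinearMap.comp_apply, LinearEquiv.coe_coe]
    rw [hEφ, hB, Pi.basis_repr]
    simp only [LinearEquiv.apply_symm_apply]
    rw [Matrix.blockDiagonal'_apply]
    by_cases hi : i' = i
    · subst hi
      rw [dif_pos rfl, mulMat_apply]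
      simp [Pi.basis_apply]
    · rw [dif_neg hi]
      simp [Pi.basis_apply, hi]
  · rw [← Module.finrank_eq_card_basis B, ← E.finrank_eq]
    simp

end Pool.Agent.LarsenW
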