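import Mathlib
import Pool.Agent.LarsenW.Color
import Pool.Agent.LarsenW.Decomp

/-! Final assembly. -/

open Finset Polynomial

namespace Pool.Agent.LarsenW

/-- large fields: each cyclic block is good -/
lemma good_of_large {F : Type*} [Field F] [Fintype F] (k Q0 : ℕ) (hk : 1 ≤ k) (hthr : Thr k 4 Q0)
    (hQ : Q0 ≤ Fintype.card F) {d : ℕ} (C : Matrix (Fin d) (Fin d) F) (hC : CycProps C) :
    Good k C := by
  classical
  obtain ⟨h1, h2, h3⟩ := hC
  by_cases h0 : C = 0
  · rw [h0]; exact good_zero hk
  have h3' : (2 : F) ≠ 0 → ∀ j, C j j ≠ 0 := fun h => (h3 h).resolve_right h0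
  set c : Fin d → Fin 2 := fun j => ⟨(j : ℕ) % 2, Nat.mod_lt _ (by norm_num)⟩ with hc
  have hcc : ∀ y z : Fin d, c y = c z → (y : ℕ) % 2 = (z : ℕ) % 2 := by
    intro y z h
    have := congrArg Fin.val h
    exact this
  refine good_of_coloring k 4 Q0 1 hk hthr (by rwa [pow_one]) C c ?_ ?_ ?_
  · have := Finset.card_le_univ (Finset.univ.image c)
    rw [Fintype.card_fin] at this
    omega
  · intro x
    rw [Nat.one_le_iff_ne_zero, Ne, Finset.card_eq_zero]
    intro h
    have : x ∈ Finset.univ.filter (fun y => c y = c x) := by simp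
    rw [h] at this
    simp at this
  · intro x
    have hd : 0 < d := Nat.pos_of_ne_zero (by rintro rfl; exact x.elim0)
    obtain ⟨a, hac, haN⟩ : ∃ a : Fin d, c a = c x ∧ ∀ z : Fin d, c z = c x → z ≠ a → (z : ℕ) + 2 < d := by
      by_cases hx : (x : ℕ) % 2 = (d - 1) % 2
      · refine ⟨⟨d - 1, by omega⟩, ?_, ?_⟩
        · apply Fin.ext
          simp only [hc]
          omega
        · intro z hz hza
          have h4 := hcc z x hz
          have h5 : (z : ℕ) ≠ d - 1 := fun h => hza (Fin.ext h)
          have := z.2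
          omega
      · have hd2 : 2 ≤ d := by
          by_contra hlt
          have : d = 1 := by omega
          subst this
          have := x.2
          omega
        refine ⟨⟨d - 2, by omega⟩, ?_, ?_⟩
        · apply Fin.ext
          simp only [hc]
          omega
        · intro z hz hza
          have h4 := hcc z x hz
          have h5 : (z : ℕ) ≠ d - 2 := fun h => hza (Fin.ext h)
          have := z.2
          omega
    refine ⟨1, a, hac, ?_, ?_⟩
    · intro y z hy hz hza
      have hz2 := haN z hz hza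
      by_cases hyz : y = z
      · subst hyz
        rw [if_pos rfl]
        exact h2 y hz2
      · rw [if_neg hyz]
        refine h1 y z (by omega) hyz ?_
        have h4 := hcc y z (by rw [hy, hz])
        omega
    · by_cases h : (2 : F) = 0
      · right; exact h
      · left; exact ⟨x, rfl, h3' h x⟩

lemma good_absorb_zero {F ι₁ ι₀ : Type*} [Field F] [Fintype F] [Fintype ι₁] [DecidableEq ι₁]
    [Fintype ι₀] [DecidableEq ι₀] (k T Q0 m : ℕ) (hk : 1 ≤ k) (hthr : Thr k T Q0)
    (hQ : Q0 ≤ Fintype.card F ^ m) (M₁ : Matrix ι₁ ι₁ F) (hdiag : ∀ x, M₁ x x ≠ 0 ∨ (2 : F) = 0)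
    (hT : 2 * Fintype.card ι₁ ≤ T) (hcard : Fintype.card ι₁ * m ≤ Fintype.card ι₀) :
    Good k (Matrix.fromBlocks M₁ 0 0 (0 : Matrix ι₀ ι₀ F)) := by
  classical
  have hm : m ≠ 0 := by
    rintro rfl
    rw [pow_zero] at hQ
    have := hthr.1
    omega
  haveI : NeZero m := ⟨hm⟩
  by_cases hne : Nonempty ι₁
  · have hcard' : Fintype.card (ι₁ × Fin m) ≤ Fintype.card ι₀ := by
      rw [Fintype.card_prod, Fintype.card_fin]; exact hcard
    obtain ⟨e⟩ := Function.Embedding.nonempty_of_card_le hcard'
    set g : ι₀ → ι₁ := fun x => (Function.invFun e x).1 with hg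
    have hge : ∀ y, g (e y) = y.1 := by
      intro y
      rw [hg]
      simp only
      rw [Function.leftInverse_invFun e.injective y]
    set c : ι₁ ⊕ ι₀ → ι₁ := Sum.elim id g with hc
    refine good_of_coloring k T Q0 m hk hthr hQ _ c ?_ ?_ ?_
    · have := Finset.card_le_univ (Finset.univ.image c)
      omega
    · intro x
      have h1 : (Finset.univ.image (fun j : Fin m => (Sum.inr (e (c x, j)) : ι₁ ⊕ ι₀))).card = m := by
        rw [Finset.card_image_of_injective]
        · simp
        · intro i j hij
          have := Sum.inr_injective hij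
          have := e.injective this
          exact (Prod.mk.inj this).2
      calc m = _ := h1.symm
        _ ≤ _ := by
          refine Finset.card_le_card ?_
          intro y hy
          rw [Finset.mem_image] at hy
          obtain ⟨j, _, rfl⟩ := hy
          rw [Finset.mem_filter]
          refine ⟨Finset.mem_univ _, ?_⟩
          have h3 : c (Sum.inr (e (c x, j))) = g (e (c x, j)) := rfl
          rw [h3, hge]
    · intro x
      refine ⟨0, Sum.inl (c x), rfl, ?_, ?_⟩
      · intro y z _ hz hza
        rcases z with z | z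
        · exfalso
          apply hza
          have : c (Sum.inl z) = z := rfl
          rw [this] at hz
          rw [hz]
        · rcases y with y | y <;> simp
      · rcases hdiag (c x) with h | h
        · left; exact ⟨Sum.inl (c x), rfl, by simpa using h⟩
        · right; exact h
  · haveI : IsEmpty ι₁ := not_nonempty_iff.mp hne
    have : Matrix.fromBlocks M₁ 0 0 (0 : Matrix ι₀ ι₀ F) = 0 := by
      ext i j
      rcases i with i | i
      · exact isEmptyElim i
      · rcases j with j | j
        · exact isEmptyElim j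
        · rfl
    rw [this]
    exact good_zero hk

lemma greedy {ι : Type*} [DecidableEq ι] (B : Finset ι) (m : ℕ) (bad : ι → Finset ι)
    (Λ : Finset ι) (hbad : ∀ a ∈ Λ, (bad a).card ≤ 3) (hB : Λ.card * m + 3 ≤ B.card) :
    ∃ W : ι → Finset ι, (∀ a ∈ Λ, W a ⊆ B ∧ Disjoint (W a) (bad a) ∧ (W a).card = m) ∧
      (∀ a ∈ Λ, ∀ b ∈ Λ, a ≠ b → Disjoint (W a) (W b)) := by
  induction Λ using Finset.induction_on with
  | empty => exact ⟨fun _ => ∅, by simp, by simp⟩
  | insert a Λ ha ih =>
    rw [Finset.card_insert_of_notMem ha] at hB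
    obtain ⟨W, hW1, hW2⟩ := ih (fun b hb => hbad b (Finset.mem_insert_of_mem hb))
      (by nlinarith)
    have hU : (Λ.biUnion W).card ≤ Λ.card * m :=
      Finset.card_biUnion_le_card_mul _ _ _ (fun b hb => (hW1 b hb).2.2.le)
    have h1 : m ≤ (B \ (Λ.biUnion W ∪ bad a)).card := by
      have h2 := Finset.le_card_sdiff (Λ.biUnion W ∪ bad a) B
      have h3 := Finset.card_union_le (Λ.biUnion W) (bad a)
      have h4 := hbad a (Finset.mem_insert_self a Λ)
      have h5 : (Λ.card + 1) * m = Λ.card * m + m := by ring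
      omega
    obtain ⟨S, hS1, hS2⟩ := Finset.exists_subset_card_eq h1
    refine ⟨Function.update W a S, ?_, ?_⟩
    · intro b hb
      by_cases hba : b = a
      · subst hba
        rw [Function.update_self]
        refine ⟨hS1.trans Finset.sdiff_subset, ?_, hS2⟩
        rw [Finset.disjoint_left]
        intro x hx hx'
        have := Finset.mem_sdiff.mp (hS1 hx)
        exact this.2 (Finset.mem_union_right _ hx')
      · rw [Function.update_of_ne hba]
        exact hW1 b ((Finset.mem_insert.mp hb).resolve_left hba)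
    · have hdis : ∀ b ∈ Λ, Disjoint S (W b) := by
        intro b hb
        rw [Finset.disjoint_left]
        intro x hx hx'
        have := Finset.mem_sdiff.mp (hS1 hx)
        exact this.2 (Finset.mem_union_left _ (Finset.mem_biUnion.mpr ⟨b, hb, hx'⟩))
      intro b hb b' hb' hbb'
      by_cases hba : b = a
      · subst hba
        rw [Function.update_self, Function.update_of_ne hbb'.symm]
        exact hdis b' ((Finset.mem_insert.mp hb').resolve_left hbb'.symm)
      · by_cases hb'a : b' = a
        · subst hb'a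
          rw [Function.update_self, Function.update_of_ne hba]
          exact (hdis b ((Finset.mem_insert.mp hb).resolve_left hba)).symm
        · rw [Function.update_of_ne hba, Function.update_of_ne hb'a]
          exact hW2 b ((Finset.mem_insert.mp hb).resolve_left hba) b'
            ((Finset.mem_insert.mp hb').resolve_left hb'a) hbb'

theorem good_of_labels {F ι L : Type*} [Field F] [Fintype F] [DecidableEq F] [Fintype ι] [DecidableEq ι]
    [Fintype L] [DecidableEq L] [Nonempty L] (k T Q0 m : ℕ) (hk : 1 ≤ k) (hthr : Thr k T Q0)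
    (hQ : Q0 ≤ Fintype.card F ^ m) (M : Matrix ι ι F) (l : ι → L) (val : L → F)
    (H1 : ∀ x y, l x = l y → M x y = if x = y then val (l x) else 0)
    (H2 : ∀ x, val (l x) ≠ 0 ∨ (2 : F) = 0)
    (H3 : ∀ x, (Finset.univ.filter (fun y => M x y ≠ 0)).card ≤ 3)
    (hT : 2 * (Fintype.card L + Fintype.card L * m) ≤ T)
    (hcard : Fintype.card L * (Fintype.card L * m * m + m + 3) ≤ Fintype.card ι) :
    Good k M := by
  classical
  have hm : m ≠ 0 := by
    rintro rfl
    rw [pow_zero] at hQ
    have := hthr.1
    omega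
  obtain ⟨κ, hκ⟩ := Fintype.exists_le_card_fiber_of_mul_le_card l hcard
  set B : Finset ι := Finset.univ.filter (fun x => l x = κ) with hB
  set Λ : Finset ι := Finset.univ.filter
    (fun x => (Finset.univ.filter (fun y => l y = l x)).card < m) with hΛ
  have hmemΛ : ∀ x, x ∈ Λ ↔ (Finset.univ.filter (fun y => l y = l x)).card < m := by
    intro x; rw [hΛ]; simp
  have hmemB : ∀ x, x ∈ B ↔ l x = κ := by
    intro x; rw [hB]; simp
  have hΛcard : Λ.card ≤ Fintype.card L * m := by
    have h1 : Λ ⊆ (Finset.univ.filter (fun t : L => (Finset.univ.filter (fun y => l y = t)).card < m)).biUnion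
        (fun t => Finset.univ.filter (fun y => l y = t)) := by
      intro x hx
      rw [Finset.mem_biUnion]
      refine ⟨l x, ?_, ?_⟩
      · rw [Finset.mem_filter]
        exact ⟨Finset.mem_univ _, (hmemΛ x).mp hx⟩
      · rw [Finset.mem_filter]
        exact ⟨Finset.mem_univ _, rfl⟩
    refine (Finset.card_le_card h1).trans ?_
    refine (Finset.card_biUnion_le_card_mul _ _ m ?_).trans ?_
    · intro t ht
      exact (Finset.mem_filter.mp ht).2.le
    · exact Nat.mul_le_mul_right m (Finset.card_le_univ _)
  have hBcard : Fintype.card L * m * m + m + 3 ≤ B.card := hκ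
  have hBΛ : ∀ x ∈ B, x ∉ Λ := by
    intro x hx hx'
    rw [hmemΛ, (hmemB x).mp hx] at hx'
    have : B.card < m := hx'
    omega
  have hΛm : Λ.card * m ≤ Fintype.card L * m * m := Nat.mul_le_mul_right m hΛcard
  obtain ⟨W, hW1, hW2⟩ := greedy B m (fun x => Finset.univ.filter (fun y => M x y ≠ 0)) Λ
    (fun a _ => H3 a) (by omega)
  set c : ι → L ⊕ ι := fun x => if x ∈ Λ then Sum.inr x else
    if h : ∃ a ∈ Λ, x ∈ W a then Sum.inr h.choose else Sum.inl (l x) with hc
  have hc1 : ∀ x ∈ Λ, c x = Sum.inr x := by
    intro x hx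
    rw [hc]
    simp only [if_pos hx]
  have hc2 : ∀ a ∈ Λ, ∀ x ∈ W a, c x = Sum.inr a := by
    intro a ha x hx
    have hxΛ : x ∉ Λ := hBΛ x ((hW1 a ha).1 hx)
    have hex : ∃ a ∈ Λ, x ∈ W a := ⟨a, ha, hx⟩
    rw [hc]
    simp only [if_neg hxΛ]
    rw [dif_pos hex]
    congr 1
    by_contra hne
    have h1 := hex.choose_spec
    exact (Finset.disjoint_left.mp (hW2 _ h1.1 a ha hne)) h1.2 hx
  have hc3 : ∀ x, x ∉ Λ → (¬ ∃ a ∈ Λ, x ∈ W a) → c x = Sum.inl (l x) := by
    intro x h1 h2
    rw [hc]
    simp only [if_neg h1]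
    rw [dif_neg h2]
  have hc4 : ∀ x a, c x = Sum.inr a → a ∈ Λ ∧ (x = a ∨ x ∈ W a) := by
    intro x a hx
    by_cases h1 : x ∈ Λ
    · rw [hc1 x h1] at hx
      have := Sum.inr_injective hx
      subst this
      exact ⟨h1, Or.inl rfl⟩
    · by_cases h2 : ∃ a ∈ Λ, x ∈ W a
      · obtain ⟨b, hb, hxb⟩ := h2
        rw [hc2 b hb x hxb] at hx
        have := Sum.inr_injective hx
        subst this
        exact ⟨hb, Or.inr hxb⟩
      · rw [hc3 x h1 h2] at hx
        exact absurd hx (by simp)
  have hc5 : ∀ x t, c x = Sum.inl t → l x = t ∧ x ∉ Λ ∧ ¬ ∃ a ∈ Λ, x ∈ W a := by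
    intro x t hx
    by_cases h1 : x ∈ Λ
    · rw [hc1 x h1] at hx
      exact absurd hx (by simp)
    · by_cases h2 : ∃ a ∈ Λ, x ∈ W a
      · obtain ⟨b, hb, hxb⟩ := h2
        rw [hc2 b hb x hxb] at hx
        exact absurd hx (by simp)
      · rw [hc3 x h1 h2] at hx
        exact ⟨Sum.inl_injective hx, h1, h2⟩
  refine good_of_coloring k T Q0 m hk hthr hQ M c ?_ ?_ ?_
  · have h1 : Finset.univ.image c ⊆ (Finset.univ.image (Sum.inl : L → L ⊕ ι)) ∪
        (Λ.image (Sum.inr : ι → L ⊕ ι)) := by
      intro y hy
      rw [Finset.mem_image] at hy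
      obtain ⟨x, _, rfl⟩ := hy
      rw [Finset.mem_union, Finset.mem_image, Finset.mem_image]
      rcases hx : c x with t | a
      · left; exact ⟨t, Finset.mem_univ _, rfl⟩
      · right; exact ⟨a, (hc4 x a hx).1, rfl⟩
    have h2 := Finset.card_le_card h1
    have h3 := Finset.card_union_le (Finset.univ.image (Sum.inl : L → L ⊕ ι))
      (Λ.image (Sum.inr : ι → L ⊕ ι))
    have h4 : (Finset.univ.image (Sum.inl : L → L ⊕ ι)).card ≤ Fintype.card L :=
      Finset.card_image_le
    have h5 : (Λ.image (Sum.inr : ι → L ⊕ ι)).card ≤ Λ.card := Finset.card_image_le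
    omega
  · intro x
    rcases hx : c x with t | a
    · obtain ⟨h1, h2, h3⟩ := hc5 x t hx
      by_cases ht : t = κ
      · subst ht
        have h4 : B \ Λ.biUnion W ⊆ Finset.univ.filter (fun y => c y = Sum.inl t) := by
          intro y hy
          rw [Finset.mem_sdiff] at hy
          rw [Finset.mem_filter]
          refine ⟨Finset.mem_univ _, ?_⟩
          rw [hc3 y (hBΛ y hy.1), (hmemB y).mp hy.1]
          intro h
          obtain ⟨a, ha, hya⟩ := h
          exact hy.2 (Finset.mem_biUnion.mpr ⟨a, ha, hya⟩)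
        have h5 := Finset.card_le_card h4
        have h6 := Finset.le_card_sdiff (Λ.biUnion W) B
        have h7 : (Λ.biUnion W).card ≤ Λ.card * m :=
          Finset.card_biUnion_le_card_mul _ _ _ (fun b hb => (hW1 b hb).2.2.le)
        omega
      · have h4 : Finset.univ.filter (fun y => l y = l x) ⊆
            Finset.univ.filter (fun y => c y = Sum.inl t) := by
          intro y hy
          rw [Finset.mem_filter] at hy ⊢
          refine ⟨Finset.mem_univ _, ?_⟩
          have h5 : y ∉ Λ := by
            rw [hmemΛ, hy.2, ← hmemΛ]; exact h2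
          rw [hc3 y h5, hy.2, h1]
          rintro ⟨a, ha, hya⟩
          have := (hmemB y).mp ((hW1 a ha).1 hya)
          rw [hy.2, h1] at this
          exact ht this
        have h5 := Finset.card_le_card h4
        have h6 : ¬ (Finset.univ.filter (fun y => l y = l x)).card < m := by
          rw [← hmemΛ]; exact h2
        omega
    · obtain ⟨h1, _⟩ := hc4 x a hx
      have h4 : W a ⊆ Finset.univ.filter (fun y => c y = Sum.inr a) := by
        intro y hy
        rw [Finset.mem_filter]
        exact ⟨Finset.mem_univ _, hc2 a h1 y hy⟩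
      have h5 := Finset.card_le_card h4
      rw [(hW1 a h1).2.2] at h5
      exact h5
  · intro x
    rcases hx : c x with t | a
    · obtain ⟨h1, _, _⟩ := hc5 x t hx
      refine ⟨val t, x, hx, ?_, ?_⟩
      · intro y z hy hz _
        have h2 := (hc5 y t hy).1
        have h3 := (hc5 z t hz).1
        rw [H1 y z (by rw [h2, h3]), h2]
      · rcases H2 x with h | h
        · left
          refine ⟨x, hx, ?_⟩
          rw [H1 x x rfl, if_pos rfl]
          exact h
        · right; exact h
    · obtain ⟨h1, _⟩ := hc4 x a hx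
      refine ⟨val κ, a, hc1 a h1, ?_, ?_⟩
      · intro y z hy hz hza
        have hz' : z ∈ W a := (hc4 z a hz).2.resolve_left hza
        have hzB : l z = κ := (hmemB z).mp ((hW1 a h1).1 hz')
        rcases (hc4 y a hy).2 with h | h
        · subst h
          have h3 : z ∉ Finset.univ.filter (fun w => M y w ≠ 0) :=
            Finset.disjoint_left.mp (hW1 y h1).2.1 hz'
          rw [Finset.mem_filter, not_and, not_not] at h3
          rw [h3 (Finset.mem_univ _), if_neg (Ne.symm hza)]
        · have hyB : l y = κ := (hmemB y).mp ((hW1 a h1).1 h)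
          rw [H1 y z (by rw [hyB, hzB]), hyB]
      · rcases H2 a with h | h
        · left
          refine ⟨a, hc1 a h1, ?_⟩
          rw [H1 a a rfl, if_pos rfl]
          exact h
        · right; exact h

end Pool.Agent.LarsenW
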