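import Mathlib
import Pool.Agent.LarsenW.Small

/-! Larsen's conjecture: for every `k` there is `N` such that every matrix of `M_n(F_q)` with
`q ^ (n ^ 2) ≥ N` is a sum of two `k`-th powers. -/

open Finset Polynomial

namespace Pool.Agent.LarsenW

lemma exists_m (k q : ℕ) : ∃ m : ℕ,
    (1000 * k ^ 2 * (2 * (3 * q + 3 * q * m) + 1)) ^ 4 ≤ 2 ^ m := by
  set c := 1000 * k ^ 2 * (6 * q + 1) with hc
  refine ⟨8 * (8 * c), ?_⟩
  set t := 8 * c with ht
  have h1 : 1000 * k ^ 2 * (2 * (3 * q + 3 * q * (8 * t)) + 1) ≤ c * (8 * t + 1) := by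
    rw [hc]
    have : 2 * (3 * q + 3 * q * (8 * t)) + 1 ≤ (6 * q + 1) * (8 * t + 1) := by nlinarith
    calc 1000 * k ^ 2 * (2 * (3 * q + 3 * q * (8 * t)) + 1)
        ≤ 1000 * k ^ 2 * ((6 * q + 1) * (8 * t + 1)) := Nat.mul_le_mul_left _ this
      _ = 1000 * k ^ 2 * (6 * q + 1) * (8 * t + 1) := by ring
  have h2 : c * (8 * t + 1) ≤ 2 ^ t * 2 ^ t := by
    have h3 : t < 2 ^ t := Nat.lt_two_pow_self
    calc c * (8 * t + 1) ≤ (8 * c) * (t + 1) := by nlinarith
      _ = t * (t + 1) := by rw [← ht]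
      _ ≤ 2 ^ t * 2 ^ t := Nat.mul_le_mul h3.le h3
  calc (1000 * k ^ 2 * (2 * (3 * q + 3 * q * (8 * t)) + 1)) ^ 4 ≤ (2 ^ t * 2 ^ t) ^ 4 :=
        Nat.pow_le_pow_left (h1.trans h2) 4
    _ = 2 ^ (8 * t) := by rw [← pow_add, ← pow_mul]; congr 1; ring

theorem small_q (k : ℕ) (hk : 1 ≤ k) (q : ℕ) : ∃ n0 : ℕ, ∀ (n : ℕ) (F : Type) [Field F] [Fintype F],
    Fintype.card F = q → n0 ≤ n → ∀ A : Matrix (Fin n) (Fin n) F, Good k A := by
  classical
  obtain ⟨m, hm⟩ := exists_m k q
  set T := 2 * (3 * q + 3 * q * m) with hT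
  set n1 := 3 * q * (3 * q * m * m + m + 3) with hn1
  set T2 := 2 * n1 with hT2
  set m2 := (1000 * k ^ 2 * (T2 + 1)) ^ 4 with hm2
  refine ⟨n1 + n1 * m2, ?_⟩
  intro n F _ _ hq hn A
  have hF2 : 2 ≤ Fintype.card F := Fintype.one_lt_card
  obtain ⟨I, _, _, d, C, Ψ, hΨ, hC, hcard⟩ := decomposition n A
  refine Good.of_algEquiv Ψ ?_
  rw [hΨ]
  set ι := (Σ i, Fin (d i)) with hι
  set p : ι → Prop := fun x => (2 : F) = 0 ∨ C x.1 ≠ 0 with hp
  set M : Matrix ι ι F := Matrix.blockDiagonal' C with hM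
  have hMne : ∀ x y : ι, x.1 ≠ y.1 → M x y = 0 := by
    intro x y h
    rw [hM, Matrix.blockDiagonal'_apply, dif_neg h]
  have hMeq : ∀ (i : I) (j j' : Fin (d i)), M ⟨i, j⟩ ⟨i, j'⟩ = C i j j' := by
    intro i j j'
    rw [hM, Matrix.blockDiagonal'_apply_eq]
  -- split off the zero blocks
  set M1 : Matrix {x // p x} {x // p x} F := M.submatrix Subtype.val Subtype.val with hM1
  have hsplit : Matrix.reindexAlgEquiv F F (Equiv.sumCompl p).symm M
      = Matrix.fromBlocks M1 0 0 (0 : Matrix {x // ¬ p x} {x // ¬ p x} F) := by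
    ext x y
    rw [Matrix.coe_reindexAlgEquiv, Matrix.reindex_apply, Matrix.submatrix_apply]
    rcases x with ⟨⟨i, j⟩, hx⟩ | ⟨⟨i, j⟩, hx⟩ <;> rcases y with ⟨⟨i', j'⟩, hy⟩ | ⟨⟨i', j'⟩, hy⟩
    · simp [hM1]
    · simp only [Equiv.symm_symm, Equiv.sumCompl_apply_inl, Equiv.sumCompl_apply_inr,
        Matrix.fromBlocks_apply₁₂, Matrix.zero_apply]
      apply hMne
      intro h
      simp only at h
      subst h
      exact hy hx
    · simp only [Equiv.symm_symm, Equiv.sumCompl_apply_inl, Equiv.sumCompl_apply_inr,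
        Matrix.fromBlocks_apply₂₁, Matrix.zero_apply]
      apply hMne
      intro h
      simp only at h
      subst h
      exact hx hy
    · simp only [Equiv.symm_symm, Equiv.sumCompl_apply_inr,
        Matrix.fromBlocks_apply₂₂, Matrix.zero_apply]
      by_cases h : i = i'
      · subst h
        rw [hMeq]
        have h2 : C i = 0 := by
          by_contra h3
          exact hx (Or.inr h3)
        rw [h2]
        rfl
      · exact hMne _ _ h
  refine Good.of_algEquiv (Matrix.reindexAlgEquiv F F (Equiv.sumCompl p).symm) ?_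
  rw [hsplit]
  have hM1ne : ∀ x y : {x // p x}, x.1.1 ≠ y.1.1 → M1 x y = 0 := by
    intro x y h
    rw [hM1, Matrix.submatrix_apply]
    exact hMne _ _ h
  have hdiag : ∀ x, M1 x x ≠ 0 ∨ (2 : F) = 0 := by
    rintro ⟨⟨i, j⟩, hx⟩
    rcases hx with h | h
    · right; exact h
    · by_cases h2 : (2 : F) = 0
      · right; exact h2
      · left
        have := ((hC i).2.2 h2).resolve_right h
        rw [hM1, Matrix.submatrix_apply, hMeq]
        exact this j
  by_cases hbig : n1 ≤ Fintype.card {x // p x}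
  · refine Good.fromBlocks_zero hk ?_
    -- labels
    set l : {x // p x} → Fin 3 × F := fun x =>
      (if (x.1.2 : ℕ) + 1 = d x.1.1 then 2 else if (x.1.2 : ℕ) % 2 = 0 then 0 else 1, M1 x x) with hl
    have hcL : Fintype.card (Fin 3 × F) = 3 * q := by
      rw [Fintype.card_prod, Fintype.card_fin, hq]
    refine good_of_labels (L := Fin 3 × F) k T ((1000 * k ^ 2 * (T + 1)) ^ 4) m hk
      (threshold k T hk) ?_ M1 l Prod.snd ?_ ?_ ?_ ?_ ?_
    · exact hm.trans (Nat.pow_le_pow_left hF2 m)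
    · rintro ⟨⟨i, j⟩, hx⟩ ⟨⟨i', j'⟩, hy⟩ hxy
      by_cases hii : i = i'
      · subst hii
        by_cases hjj : j = j'
        · subst hjj
          rw [if_pos rfl]
        · rw [if_neg (by
            intro h
            apply hjj
            have h' := congrArg Subtype.val h
            exact eq_of_heq (Sigma.mk.inj h').2)]
          rw [hM1, Matrix.submatrix_apply, hMeq]
          have h1 := (Prod.mk.inj hxy).1
          simp only at h1
          have hjj' : (j : ℕ) ≠ (j' : ℕ) := fun h => hjj (Fin.ext h)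
          have hj1 := j.2
          have hj2 := j'.2
          have h3 : (j' : ℕ) + 1 < d i ∧ (j : ℕ) ≠ j' + 1 := by
            split_ifs at h1 <;> omega
          exact (hC i).1 j j' h3.1 hjj h3.2
      · rw [if_neg (by
          intro h
          apply hii
          have := congrArg Subtype.val h
          exact congrArg Sigma.fst this)]
        rw [hM1, Matrix.submatrix_apply]
        exact hMne _ _ hii
    · intro x
      exact hdiag x
    · rintro ⟨⟨i, j⟩, hx⟩
      have h1 : (({(j : ℕ), (j : ℕ) - 1, d i - 1} : Finset ℕ)).card ≤ 3 := Finset.card_le_three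
      refine le_trans ?_ h1
      refine Finset.card_le_card_of_injOn (fun y => (y.1.2 : ℕ)) ?_ ?_
      · rintro ⟨⟨i', j'⟩, hy⟩ hy'
        simp only [Finset.coe_filter, Finset.mem_univ, true_and, Set.mem_ofPred_eq] at hy'
        by_cases hii : i = i'
        · subst hii
          rw [hM1, Matrix.submatrix_apply, hMeq] at hy'
          have hj1 := j.2
          have hj2 := j'.2
          simp only [Finset.coe_insert, Finset.coe_singleton, Set.mem_insert_iff,
            Set.mem_singleton_iff]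
          by_contra hcon
          push Not at hcon
          exact hy' ((hC i).1 j j' (by omega) (fun h => hcon.1 (congrArg Fin.val h.symm)) (by omega))
        · exact absurd (hM1ne ⟨⟨i, j⟩, hx⟩ ⟨⟨i', j'⟩, hy⟩ hii) hy'
      · rintro ⟨⟨i', j'⟩, hy⟩ hy' ⟨⟨i'', j''⟩, hz⟩ hz' hyz
        simp only [Finset.coe_filter, Finset.mem_univ, true_and, Set.mem_ofPred_eq] at hy' hz'
        have h2 : i = i' := by
          by_contra hii
          exact hy' (hM1ne ⟨⟨i, j⟩, hx⟩ ⟨⟨i', j'⟩, hy⟩ hii)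
        have h3 : i = i'' := by
          by_contra hii
          exact hz' (hM1ne ⟨⟨i, j⟩, hx⟩ ⟨⟨i'', j''⟩, hz⟩ hii)
        subst h2
        subst h3
        have : j' = j'' := Fin.ext hyz
        subst this
        rfl
    · rw [hcL]
    · rw [hcL]; exact hbig
  · push Not at hbig
    have hcompl : Fintype.card {x // p x} + Fintype.card {x // ¬ p x} = n := by
      have hcard' : Fintype.card ι = n := hcard
      have := Fintype.card_subtype_compl p
      have h2 := Fintype.card_subtype_le p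
      omega
    refine good_absorb_zero k T2 ((1000 * k ^ 2 * (T2 + 1)) ^ 4) m2 hk
      (threshold k T2 hk) ?_ M1 hdiag ?_ ?_
    · rw [← hm2]
      calc m2 ≤ 2 ^ m2 := Nat.lt_two_pow_self.le
        _ ≤ Fintype.card F ^ m2 := Nat.pow_le_pow_left hF2 m2
    · rw [hT2]; omega
    · have h1 : Fintype.card {x // p x} * m2 ≤ n1 * m2 := Nat.mul_le_mul_right m2 hbig.le
      omega

/-- Larsen's conjecture. -/
theorem larsen (k : ℕ) (hk : 1 ≤ k) : ∃ N : ℕ, ∀ (n : ℕ) (F : Type) [Field F] [Fintype F],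
      N ≤ Fintype.card F ^ (n ^ 2) →
        ∀ A : Matrix (Fin n) (Fin n) F, ∃ X Y : Matrix (Fin n) (Fin n) F, A = X ^ k + Y ^ k := by
  classical
  set Q0 := (1000 * k ^ 2 * (4 + 1)) ^ 4 with hQ0
  choose n0 hn0 using small_q k hk
  set n1 := (Finset.range Q0).sup n0 with hn1
  refine ⟨Q0 ^ (n1 ^ 2) + 1, ?_⟩
  intro n F _ _ hN A
  by_cases hq : Q0 ≤ Fintype.card F
  · obtain ⟨I, _, _, d, C, Ψ, hΨ, hC, _⟩ := decomposition n A
    refine Good.of_algEquiv Ψ ?_
    rw [hΨ]
    exact good_blockDiagonal' C (fun i => good_of_large k Q0 hk (threshold k 4 hk) hq (C i) (hC i))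
  · push Not at hq
    refine hn0 (Fintype.card F) n F rfl ?_ A
    have h1 : n0 (Fintype.card F) ≤ n1 := Finset.le_sup (f := n0) (Finset.mem_range.mpr hq)
    refine h1.trans ?_
    by_contra hlt
    push Not at hlt
    have h2 : Fintype.card F ^ (n ^ 2) ≤ Q0 ^ (n1 ^ 2) := by
      calc Fintype.card F ^ (n ^ 2) ≤ Q0 ^ (n ^ 2) := Nat.pow_le_pow_left hq.le _
        _ ≤ Q0 ^ (n1 ^ 2) := by
          refine Nat.pow_le_pow_right ?_ (Nat.pow_le_pow_left hlt.le 2)
          exact lt_of_le_of_lt (Nat.zero_le _) hq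
    omega

end Pool.Agent.LarsenW
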